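import Pool.Agent.H238.HF.KDefs

/-!
# HK-BAS: commutativity of the fundamental group does not depend on the base point (helper182, for helper238)
-/

set_option autoImplicit false

open Topology Set Filter

namespace Pool.Agent.H238.HK

theorem pBAS : BAS := by
  intro X _ _ x h y α β
  have e : FundamentalGroup X y ≃* FundamentalGroup X x :=
    FundamentalGroup.fundamentalGroupMulEquivOfPathConnected y x
  apply e.injective
  rw [map_mul, map_mul]
  exact h _ _

end Pool.Agent.H238.HK
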