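import Pool.Agent.H238.HF.KDefs

/-!
# The face labels at the crossings
-/

set_option autoImplicit false

open Topology Set Filter

namespace Pool.Agent.H238.HK

open Pool.Agent.Helper22.LC (core isCov lab lab_inj mono_chart Pers pers_ev ite_ev ite_ev')

private theorem gg_c {x y : ℝ} (h1 : 0 ≤ x) (h2 : 0 ≤ y) (h3 : x + y ≤ 1) : gg x y = pa * pb := by
  unfold gg
  rw [if_pos ⟨h1, h2, h3⟩]

private theorem gg_2 {x y : ℝ} (h1 : 0 ≤ x) (h2 : 0 ≤ y) (h3 : 1 < x + y) (h4 : x + y < 2) :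
    gg x y = pa := by
  unfold gg
  rw [if_neg (fun h => absurd h.2.2 (not_le.2 h3)), if_pos ⟨h1, h2, h4⟩]

private theorem gg_3 {x y : ℝ} (h1 : -1 < y) (h2 : y < 0) (h3 : 0 < x) (h4 : x + y ≤ 1) :
    gg x y = pb := by
  unfold gg
  rw [if_neg (fun h => absurd h.2.1 (not_le.2 h2)), if_neg (fun h => absurd h.2.1 (not_le.2 h2)),
    if_pos ⟨h1, h2, h3, h4⟩]

private theorem gg_4 {x y : ℝ} (h1 : -1 < x) (h2 : x < 0) (h3 : 0 ≤ y) (h4 : x + y < 1) :
    gg x y = pa * pb * pa := by
  unfold gg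
  rw [if_neg (fun h => absurd h.1 (not_le.2 h2)), if_neg (fun h => absurd h.1 (not_le.2 h2)),
    if_neg (fun h => absurd h.2.1 (not_lt.2 h3)), if_pos ⟨h1, h2, h3, h4⟩]

private theorem gg_5 {x y : ℝ} (h1 : x < 0) (h2 : y < 0) : gg x y = 1 := by
  unfold gg
  rw [if_neg (fun h => absurd h.1 (not_le.2 h1)), if_neg (fun h => absurd h.1 (not_le.2 h1)),
    if_neg (fun h => absurd h.2.2.1 (not_lt.2 h1.le)), if_neg (fun h => absurd h.2.2.1 (not_le.2 h2))]

private theorem gg_6 {x y : ℝ} (h1 : 0 ≤ x) (h2 : y < 0) (h3 : 1 < x + y) : gg x y = 1 := by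
  unfold gg
  rw [if_neg (fun h => absurd h.2.1 (not_le.2 h2)), if_neg (fun h => absurd h.2.1 (not_le.2 h2)),
    if_neg (fun h => absurd h.2.2.2 (not_le.2 h3)), if_neg (fun h => absurd h.2.1 (not_lt.2 h1))]

private theorem gg_7 {x y : ℝ} (h1 : x < 0) (h2 : 0 ≤ y) (h3 : 1 < x + y) : gg x y = 1 := by
  unfold gg
  rw [if_neg (fun h => absurd h.1 (not_le.2 h1)), if_neg (fun h => absurd h.1 (not_le.2 h1)),
    if_neg (fun h => absurd h.2.1 (not_lt.2 h2)), if_neg (fun h => absurd h.2.2.2 (not_lt.2 h3.le))]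

theorem pBOX : BOX := by
  refine ⟨?_, ?_, ?_⟩
  · intro x y hx1 hx2 hy1 hy2 hx0
    rcases lt_or_gt_of_ne hx0 with hx | hx
    · rw [if_pos hx]
      rcases le_or_gt 0 y with hy | hy
      · rw [if_pos hy, gg_4 (by linarith) hx hy (by linarith)]
        decide
      · rw [if_neg (not_le.2 hy), gg_5 hx hy]
        decide
    · rw [if_neg (not_lt.2 hx.le)]
      rcases le_or_gt 0 y with hy | hy
      · rw [if_pos hy, gg_c hx.le hy (by linarith)]
        decide
      · rw [if_neg (not_le.2 hy), gg_3 (by linarith) hy hx (by linarith)]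
        decide
  · intro x y hx1 hx2 hy1 hy2 hy0
    have hx : 0 < x := by linarith
    rcases lt_or_gt_of_ne hy0 with hy | hy
    · rw [if_pos hy]
      rcases le_or_gt (x + y) 1 with hs | hs
      · rw [if_pos hs, gg_3 (by linarith) hy hx hs]
        decide
      · rw [if_neg (not_le.2 hs), gg_6 hx.le hy hs]
        decide
    · rw [if_neg (not_lt.2 hy.le)]
      rcases le_or_gt (x + y) 1 with hs | hs
      · rw [if_pos hs, gg_c hx.le hy.le hs]
        decide
      · rw [if_neg (not_le.2 hs), gg_2 hx.le hy.le hs (by linarith)]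
        decide
  · intro x y hx1 hx2 hy1 hy2 hs0
    have hy : 0 ≤ y := by linarith
    rcases lt_or_gt_of_ne hs0 with hs | hs
    · rw [if_neg (not_lt.2 hs.le)]
      rcases le_or_gt 0 x with hx | hx
      · rw [if_pos hx, gg_c hx hy hs.le]
        decide
      · rw [if_neg (not_le.2 hx), gg_4 (by linarith) hx hy hs]
        decide
    · rw [if_pos hs]
      rcases le_or_gt 0 x with hx | hx
      · rw [if_pos hx, gg_2 hx hy hs (by linarith)]
        decide
      · rw [if_neg (not_le.2 hx), gg_7 hx hy hs]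
        decide

end Pool.Agent.H238.HK
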