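import Pool.Graph.R_seed8.Helper22.LC.Trefoil

/-!
# A hexagonal trefoil: definitions and statements (every statement is a `Prop`)

The hexagon `(-1,0,3), (2,0,-3), (0,2,3), (0,-1,-3), (2,-1,3), (-1,2,-3)` is a trefoil. Its projection to the
`(x,y)` plane has the crossings `(0,0)` (`L1` over `L2`), `(1,0)` (`L3` over `L1`), `(0,1)` (`L2` over `L3`).
-/

set_option autoImplicit false

open Topology Set Filter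

namespace Pool.Agent.H238.HK

open Pool.Agent.Helper22.LC (core isCov lab lab_inj mono_chart Pers pers_ev ite_ev ite_ev')

/-- The hexagon, as a subset of `ℝ × ℝ × ℝ`: the edges `L1`, `s1`, `L2`, `s2`, `L3`, `s3`. -/
def TK : Set (ℝ × ℝ × ℝ) :=
  {p | (p.2.1 = 0 ∧ -1 ≤ p.1 ∧ p.1 ≤ 2 ∧ p.2.2 = 1 - 2 * p.1) ∨
       (p.1 + p.2.1 = 2 ∧ 0 ≤ p.1 ∧ 0 ≤ p.2.1 ∧ p.2.2 = 3 * p.2.1 - 3) ∨
       (p.1 = 0 ∧ -1 ≤ p.2.1 ∧ p.2.1 ≤ 2 ∧ p.2.2 = 2 * p.2.1 - 1) ∨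
       (p.2.1 = -1 ∧ 0 ≤ p.1 ∧ p.1 ≤ 2 ∧ p.2.2 = 3 * p.1 - 3) ∨
       (p.1 + p.2.1 = 1 ∧ -1 ≤ p.1 ∧ p.1 ≤ 2 ∧ p.2.2 = 2 * p.1 - 1) ∨
       (p.1 = -1 ∧ 0 ≤ p.2.1 ∧ p.2.1 ≤ 2 ∧ p.2.2 = 3 - 3 * p.2.1)}

/-- Its complement. -/
abbrev TC : Type := {p : ℝ × ℝ × ℝ // p ∉ TK}

/-- the transposition `(0 1)` -/
abbrev pa : Equiv.Perm (Fin 3) := Equiv.swap 0 1
/-- the transposition `(1 2)` -/
abbrev pb : Equiv.Perm (Fin 3) := Equiv.swap 1 2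

/-- the face labels: the central triangle, the three lobes, the outer face -/
noncomputable def gg (x y : ℝ) : Equiv.Perm (Fin 3) :=
  if 0 ≤ x ∧ 0 ≤ y ∧ x + y ≤ 1 then pa * pb
  else if 0 ≤ x ∧ 0 ≤ y ∧ x + y < 2 then pa
  else if -1 < y ∧ y < 0 ∧ 0 < x ∧ x + y ≤ 1 then pb
  else if -1 < x ∧ x < 0 ∧ 0 ≤ y ∧ x + y < 1 then pa * pb * pa
  else 1

/-- the point `(x,y)` is on the projection of the hexagon -/
def Sh (x y : ℝ) : Prop :=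
  (y = 0 ∧ -1 ≤ x ∧ x ≤ 2) ∨ (x + y = 2 ∧ 0 ≤ x ∧ 0 ≤ y) ∨ (x = 0 ∧ -1 ≤ y ∧ y ≤ 2) ∨
  (y = -1 ∧ 0 ≤ x ∧ x ≤ 2) ∨ (x + y = 1 ∧ -1 ≤ x ∧ x ≤ 2) ∨ (x = -1 ∧ 0 ≤ y ∧ y ≤ 2)

/-- The base set `U`: the upward ray is free. -/
def BU : Set TC := {p | (p.1.2.1 ≠ 0 ∨ p.1.1 < -1 ∨ 2 < p.1.1 ∨ 1 - 2 * p.1.1 < p.1.2.2) ∧
       (p.1.1 + p.1.2.1 ≠ 2 ∨ p.1.1 < 0 ∨ p.1.2.1 < 0 ∨ 3 * p.1.2.1 - 3 < p.1.2.2) ∧
       (p.1.1 ≠ 0 ∨ p.1.2.1 < -1 ∨ 2 < p.1.2.1 ∨ 2 * p.1.2.1 - 1 < p.1.2.2) ∧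
       (p.1.2.1 ≠ -1 ∨ p.1.1 < 0 ∨ 2 < p.1.1 ∨ 3 * p.1.1 - 3 < p.1.2.2) ∧
       (p.1.1 + p.1.2.1 ≠ 1 ∨ p.1.1 < -1 ∨ 2 < p.1.1 ∨ 2 * p.1.1 - 1 < p.1.2.2) ∧
       (p.1.1 ≠ -1 ∨ p.1.2.1 < 0 ∨ 2 < p.1.2.1 ∨ 3 - 3 * p.1.2.1 < p.1.2.2)}

/-- The base set `V`: the downward ray is free. -/
def BV : Set TC := {p | (p.1.2.1 ≠ 0 ∨ p.1.1 < -1 ∨ 2 < p.1.1 ∨ p.1.2.2 < 1 - 2 * p.1.1) ∧
       (p.1.1 + p.1.2.1 ≠ 2 ∨ p.1.1 < 0 ∨ p.1.2.1 < 0 ∨ p.1.2.2 < 3 * p.1.2.1 - 3) ∧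
       (p.1.1 ≠ 0 ∨ p.1.2.1 < -1 ∨ 2 < p.1.2.1 ∨ p.1.2.2 < 2 * p.1.2.1 - 1) ∧
       (p.1.2.1 ≠ -1 ∨ p.1.1 < 0 ∨ 2 < p.1.1 ∨ p.1.2.2 < 3 * p.1.1 - 3) ∧
       (p.1.1 + p.1.2.1 ≠ 1 ∨ p.1.1 < -1 ∨ 2 < p.1.1 ∨ p.1.2.2 < 2 * p.1.1 - 1) ∧
       (p.1.1 ≠ -1 ∨ p.1.2.1 < 0 ∨ 2 < p.1.2.1 ∨ p.1.2.2 < 3 - 3 * p.1.2.1)}

/-- Between the strands `L2` and `L1` at the crossing `(0,0)`. -/
def BW1 : Set TC := {p | -1/4 < p.1.1 ∧ p.1.1 < 1/4 ∧ -1/4 < p.1.2.1 ∧ p.1.2.1 < 1/4 ∧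
  2 * p.1.2.1 - 1 < p.1.2.2 ∧ p.1.2.2 < 1 - 2 * p.1.1}

/-- Between the strands `L1` and `L3` at the crossing `(1,0)`. -/
def BW2 : Set TC := {p | 3/4 < p.1.1 ∧ p.1.1 < 5/4 ∧ -1/4 < p.1.2.1 ∧ p.1.2.1 < 1/4 ∧
  1 - 2 * p.1.1 < p.1.2.2 ∧ p.1.2.2 < 2 * p.1.1 - 1}

/-- Between the strands `L3` and `L2` at the crossing `(0,1)`. -/
def BW3 : Set TC := {p | -1/4 < p.1.1 ∧ p.1.1 < 1/4 ∧ 3/4 < p.1.2.1 ∧ p.1.2.1 < 5/4 ∧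
  2 * p.1.1 - 1 < p.1.2.2 ∧ p.1.2.2 < 2 * p.1.2.1 - 1}

/-- The base sets. -/
def BS : Fin 5 → Set TC := ![BU, BV, BW1, BW2, BW3]

/-- the chart labels -/
noncomputable def cc : Fin 5 → TC → Equiv.Perm (Fin 3) :=
  ![fun _ => 1, fun p => gg p.1.1 p.1.2.1,
    fun p => if 0 ≤ p.1.2.1 then 1 else pa * pb * pa,
    fun p => if p.1.1 + p.1.2.1 ≤ 1 then 1 else pb,
    fun p => if 0 ≤ p.1.1 then 1 else pa]

/-- local constancy of the transition from chart `i` to chart `j` -/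
def Loc (i j : Fin 5) : Prop := ∀ x ∈ BS i ∩ BS j, ∀ᶠ y in 𝓝 x,
  cc j y * (cc i y)⁻¹ = cc j x * (cc i x)⁻¹

/-! ## Statements -/

/-- OPN -/
def OPN : Prop := ∀ i, IsOpen (BS i)
/-- COV -/
def COV : Prop := ∀ p : TC, ∃ i, p ∈ BS i
/-- GUV: the face labels are locally constant off the diagram. -/
def GUV : Prop := ∀ x y x' y' : ℝ, ¬ Sh x y → Pers (-1) x x' → Pers 0 x x' → Pers (-1) y y' → Pers 0 y y' →
  Pers 1 (x + y) (x' + y') → Pers 2 (x + y) (x' + y') → gg x' y' = gg x y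
/-- BOX: the face labels at the crossings. -/
def BOX : Prop :=
  (∀ x y : ℝ, -1/4 < x → x < 1/4 → -1/4 < y → y < 1/4 → x ≠ 0 →
    gg x y * (if 0 ≤ y then 1 else pa * pb * pa)⁻¹ = if x < 0 then pa * pb * pa else pa * pb) ∧
  (∀ x y : ℝ, 3/4 < x → x < 5/4 → -1/4 < y → y < 1/4 → y ≠ 0 →
    gg x y * (if x + y ≤ 1 then 1 else pb)⁻¹ = if y < 0 then pb else pa * pb) ∧
  (∀ x y : ℝ, -1/4 < x → x < 1/4 → 3/4 < y → y < 5/4 → x + y ≠ 1 →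
    gg x y * (if 0 ≤ x then 1 else pa)⁻¹ = if 1 < x + y then pa else pa * pb)
/-- LOC -/
def LOC : Prop := ∀ i j, Loc i j
/-- NCT: the group of the complement is not commutative. -/
def NCT : Prop := ∃ (x : TC) (α β : FundamentalGroup TC x), α * β ≠ β * α

/-! ## The regular hexagon -/

/-- The gauge of the regular hexagon. -/
noncomputable def ff (x y : ℝ) : ℝ := max (max |√3 * x + y| |√3 * x - y|) (2 * |y|)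

/-- The regular hexagon in coordinates. -/
def RK : Set (ℝ × ℝ × ℝ) := {p | p.2.2 = 0 ∧ ff p.1 p.2.1 = √3}

/-- Its complement. -/
abbrev RC : Type := {p : ℝ × ℝ × ℝ // p ∉ RK}

/-- `A`: the upward ray is free. -/
def RA : Set RC := {p | 0 < p.1.2.2 ∨ ff p.1.1 p.1.2.1 ≠ √3}
/-- `B`: the downward ray is free. -/
def RB : Set RC := {p | p.1.2.2 < 0 ∨ ff p.1.1 p.1.2.1 ≠ √3}
/-- the inner part of `A ∩ B` -/
def RI : Set RC := {p | ff p.1.1 p.1.2.1 < √3}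
/-- the outer part of `A ∩ B` -/
def RO : Set RC := {p | √3 < ff p.1.1 p.1.2.1}

/-- GEN: two simply connected open sets whose intersection is the union of two path connected sets. -/
def GEN : Prop := ∀ (X : Type) [TopologicalSpace X] (A B I O : Set X), IsOpen A → IsOpen B → A ∪ B = univ →
  A ∩ B = I ∪ O → IsPathConnected I → IsPathConnected O → SimplyConnectedSpace A → SimplyConnectedSpace B →
  ∀ x ∈ O, ∃ g : FundamentalGroup X x, ∀ α : FundamentalGroup X x, α ∈ Subgroup.zpowers g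
/-- BAS: commutativity does not depend on the base point. -/
def BAS : Prop := ∀ (X : Type) [TopologicalSpace X] [PathConnectedSpace X] (x : X),
  (∀ α β : FundamentalGroup X x, α * β = β * α) → ∀ (y : X) (α β : FundamentalGroup X y), α * β = β * α
/-- RAS -/
def RAS : Prop := SimplyConnectedSpace RA
/-- RBS -/
def RBS : Prop := SimplyConnectedSpace RB
/-- RIO -/
def RIO : Prop := IsPathConnected RI
/-- ROO -/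
def ROO : Prop := IsPathConnected RO
/-- CRC: the group of the complement of the regular hexagon is commutative. -/
def CRC : Prop := ∀ (x : RC) (α β : FundamentalGroup RC x), α * β = β * α
end Pool.Agent.H238.HK
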