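import Pool.Agent.H238.HF.KStm

/-!
# The trefoil hexagon is embedded (helper627 for helper238)
-/

set_option autoImplicit false

open Topology Set Filter

namespace Pool.Agent.H238.HK

open Pool.Agent.H223.MB (V trace Embedded AmbientIsotopic circ)

/-- a point of a segment, in coordinates -/
private theorem embb_seg {a b v : V} (h : v ∈ segment ℝ a b) :
    ∃ s : ℝ, 0 ≤ s ∧ s ≤ 1 ∧ v 0 = a 0 + s * (b 0 - a 0) ∧ v 1 = a 1 + s * (b 1 - a 1) ∧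
      v 2 = a 2 + s * (b 2 - a 2) := by
  obtain ⟨p, q, hp, hq, hpq, rfl⟩ := h
  refine ⟨q, hq, by linarith, ?_, ?_, ?_⟩ <;>
  · have hp' : p = 1 - q := by linarith
    simp only [PiLp.add_apply, PiLp.smul_apply, smul_eq_mul, hp']
    ring

private theorem embb_ext {v : V} {x y z : ℝ} (h0 : v 0 = x) (h1 : v 1 = y) (h2 : v 2 = z) :
    v = !₂[x, y, z] := by
  ext i
  fin_cases i
  · exact h0
  · exact h1
  · exact h2

private theorem embb_e0 {v : V} (h : v ∈ Pool.Agent.H223.MB.edge P0 0) :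
    v 1 = 0 ∧ -1 ≤ v 0 ∧ v 0 ≤ 2 ∧ v 2 = 1 - 2 * v 0 := by
  obtain ⟨s, h0, h1, a, b, c⟩ := embb_seg h
  simp [P0] at a b c
  refine ⟨?_, ?_, ?_, ?_⟩ <;> linarith

private theorem embb_e1 {v : V} (h : v ∈ Pool.Agent.H223.MB.edge P0 1) :
    v 0 + v 1 = 2 ∧ 0 ≤ v 0 ∧ 0 ≤ v 1 ∧ v 2 = 3 * v 1 - 3 := by
  obtain ⟨s, h0, h1, a, b, c⟩ := embb_seg h
  simp [P0] at a b c
  refine ⟨?_, ?_, ?_, ?_⟩ <;> linarith

private theorem embb_e2 {v : V} (h : v ∈ Pool.Agent.H223.MB.edge P0 2) :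
    v 0 = 0 ∧ -1 ≤ v 1 ∧ v 1 ≤ 2 ∧ v 2 = 2 * v 1 - 1 := by
  obtain ⟨s, h0, h1, a, b, c⟩ := embb_seg h
  simp [P0] at a b c
  refine ⟨?_, ?_, ?_, ?_⟩ <;> linarith

private theorem embb_e3 {v : V} (h : v ∈ Pool.Agent.H223.MB.edge P0 3) :
    v 1 = -1 ∧ 0 ≤ v 0 ∧ v 0 ≤ 2 ∧ v 2 = 3 * v 0 - 3 := by
  obtain ⟨s, h0, h1, a, b, c⟩ := embb_seg h
  simp [P0] at a b c
  refine ⟨?_, ?_, ?_, ?_⟩ <;> linarith

private theorem embb_e4 {v : V} (h : v ∈ Pool.Agent.H223.MB.edge P0 4) :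
    v 0 + v 1 = 1 ∧ -1 ≤ v 0 ∧ v 0 ≤ 2 ∧ v 2 = 2 * v 0 - 1 := by
  obtain ⟨s, h0, h1, a, b, c⟩ := embb_seg h
  simp [P0] at a b c
  refine ⟨?_, ?_, ?_, ?_⟩ <;> linarith

private theorem embb_e5 {v : V} (h : v ∈ Pool.Agent.H223.MB.edge P0 5) :
    v 0 = -1 ∧ 0 ≤ v 1 ∧ v 1 ≤ 2 ∧ v 2 = 3 - 3 * v 1 := by
  obtain ⟨s, h0, h1, a, b, c⟩ := embb_seg h
  simp [P0] at a b c
  refine ⟨?_, ?_, ?_, ?_⟩ <;> linarith

private theorem embb_pair : ∀ i j : Fin 6, i < j → ∀ v : V,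
    v ∈ Pool.Agent.H223.MB.edge P0 i → v ∈ Pool.Agent.H223.MB.edge P0 j →
      (j = i + 1 ∧ v = P0 j) ∨ (i = j + 1 ∧ v = P0 i) := by
  intro i j hij v hi hj
  fin_cases i <;> fin_cases j <;> first | exact absurd hij (by decide) | skip
  · obtain ⟨a1, a2, a3, a4⟩ := embb_e0 hi
    obtain ⟨b1, b2, b3, b4⟩ := embb_e1 hj
    exact Or.inl ⟨by decide, embb_ext (by linarith) (by linarith) (by linarith)⟩
  · obtain ⟨a1, a2, a3, a4⟩ := embb_e0 hi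
    obtain ⟨b1, b2, b3, b4⟩ := embb_e2 hj
    exact absurd a1 (fun _ => by linarith)
  · obtain ⟨a1, a2, a3, a4⟩ := embb_e0 hi
    obtain ⟨b1, b2, b3, b4⟩ := embb_e3 hj
    exact absurd a1 (fun _ => by linarith)
  · obtain ⟨a1, a2, a3, a4⟩ := embb_e0 hi
    obtain ⟨b1, b2, b3, b4⟩ := embb_e4 hj
    exact absurd a1 (fun _ => by linarith)
  · obtain ⟨a1, a2, a3, a4⟩ := embb_e0 hi
    obtain ⟨b1, b2, b3, b4⟩ := embb_e5 hj
    exact Or.inr ⟨by decide, embb_ext (by linarith) (by linarith) (by linarith)⟩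
  · obtain ⟨a1, a2, a3, a4⟩ := embb_e1 hi
    obtain ⟨b1, b2, b3, b4⟩ := embb_e2 hj
    exact Or.inl ⟨by decide, embb_ext (by linarith) (by linarith) (by linarith)⟩
  · obtain ⟨a1, a2, a3, a4⟩ := embb_e1 hi
    obtain ⟨b1, b2, b3, b4⟩ := embb_e3 hj
    exact absurd a1 (fun _ => by linarith)
  · obtain ⟨a1, a2, a3, a4⟩ := embb_e1 hi
    obtain ⟨b1, b2, b3, b4⟩ := embb_e4 hj
    exact absurd a1 (fun _ => by linarith)
  · obtain ⟨a1, a2, a3, a4⟩ := embb_e1 hi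
    obtain ⟨b1, b2, b3, b4⟩ := embb_e5 hj
    exact absurd a1 (fun _ => by linarith)
  · obtain ⟨a1, a2, a3, a4⟩ := embb_e2 hi
    obtain ⟨b1, b2, b3, b4⟩ := embb_e3 hj
    exact Or.inl ⟨by decide, embb_ext (by linarith) (by linarith) (by linarith)⟩
  · obtain ⟨a1, a2, a3, a4⟩ := embb_e2 hi
    obtain ⟨b1, b2, b3, b4⟩ := embb_e4 hj
    exact absurd a1 (fun _ => by linarith)
  · obtain ⟨a1, a2, a3, a4⟩ := embb_e2 hi
    obtain ⟨b1, b2, b3, b4⟩ := embb_e5 hj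
    exact absurd a1 (fun _ => by linarith)
  · obtain ⟨a1, a2, a3, a4⟩ := embb_e3 hi
    obtain ⟨b1, b2, b3, b4⟩ := embb_e4 hj
    exact Or.inl ⟨by decide, embb_ext (by linarith) (by linarith) (by linarith)⟩
  · obtain ⟨a1, a2, a3, a4⟩ := embb_e3 hi
    obtain ⟨b1, b2, b3, b4⟩ := embb_e5 hj
    exact absurd a1 (fun _ => by linarith)
  · obtain ⟨a1, a2, a3, a4⟩ := embb_e4 hi
    obtain ⟨b1, b2, b3, b4⟩ := embb_e5 hj
    exact Or.inl ⟨by decide, embb_ext (by linarith) (by linarith) (by linarith)⟩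

private theorem embb_inj : Function.Injective P0 := by
  intro i j h
  have h0 : P0 i 0 = P0 j 0 := by rw [h]
  have h1 : P0 i 1 = P0 j 1 := by rw [h]
  have h2 : P0 i 2 = P0 j 2 := by rw [h]
  fin_cases i <;> fin_cases j <;> first | rfl | (exfalso; simp [P0] at h0 h1 h2; try linarith)

theorem pEMB : EMB := by
  refine ⟨embb_inj, fun i j hij v hv => ?_⟩
  have h : (j = i + 1 ∧ v = P0 j) ∨ (i = j + 1 ∧ v = P0 i) := by
    rcases lt_or_gt_of_ne hij with h | h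
    · exact embb_pair i j h v hv.1 hv.2
    · exact (embb_pair j i h v hv.2 hv.1).symm
  rcases h with ⟨h1, h2⟩ | ⟨h1, h2⟩
  · refine ⟨Or.inr ?_, Or.inl h2⟩
    rw [← h1]
    exact h2
  · refine ⟨Or.inl h2, Or.inr ?_⟩
    rw [← h1]
    exact h2

end Pool.Agent.H238.HK
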