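import Pool.Agent.H238.HF.MStm

/-!
# The derivative of `G` (statement `D2` of the project MP_6bf31b_an)
-/

open scoped RealInnerProductSpace Topology
open Set Filter

namespace Pool.Agent.H223.MB

theorem d2_f {X Y Z : ℝ → ℝ} {x y z t : ℝ} {s : Set ℝ}
    (hX : HasDerivWithinAt X (X t * x) s t) (hY : HasDerivWithinAt Y (Y t * y) s t)
    (hZ : HasDerivWithinAt Z (Z t * z) s t) (hY0 : Y t ≠ 0) (hZ0 : Z t ≠ 0) :
    HasDerivWithinAt (fun u => f (X u) (Y u) (Z u))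
      (AX (X t) (Y t) (Z t) * x + AY (X t) (Y t) (Z t) * y + AZ (X t) (Y t) (Z t) * z) s t := by
  have h0 : (2 * Y t) * Z t ≠ 0 := mul_ne_zero (mul_ne_zero two_ne_zero hY0) hZ0
  have h1 : HasDerivWithinAt (fun u => (X u + Y u) ^ 2 - Z u ^ 2)
      (2 * (X t + Y t) * (X t * x + Y t * y) - 2 * Z t * (Z t * z)) s t := by
    have h := ((hX.add hY).pow 2).sub (hZ.pow 2)
    refine HasDerivWithinAt.congr_deriv h ?_
    simp
  have h2 : HasDerivWithinAt (fun u => (2 * Y u) * Z u)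
      (2 * (Y t * y) * Z t + 2 * Y t * (Z t * z)) s t := (hY.const_mul 2).mul hZ
  have h3 : HasDerivWithinAt (fun u => ((X u + Y u) ^ 2 - Z u ^ 2) / ((2 * Y u) * Z u)) _ s t :=
    h1.div h2 h0
  refine HasDerivWithinAt.congr_deriv h3 ?_
  unfold AX AY AZ
  field_simp
  ring

theorem d2_mul {a b : ℝ → ℝ} {x y t : ℝ} {s : Set ℝ} (ha : HasDerivWithinAt a (a t * x) s t)
    (hb : HasDerivWithinAt b (b t * y) s t) :
    HasDerivWithinAt (fun u => a u * b u) (a t * b t * (x + y)) s t := by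
  refine HasDerivWithinAt.congr_deriv (ha.mul hb) ?_
  ring

theorem d2_ind (i j : Fin 6) (h : Far i j) :
    i ≠ i + 1 ∧ j ≠ j + 1 ∧ i + 1 ≠ j ∧ i ≠ j + 1 ∧ i ≠ j ∧ i + 1 ≠ j + 1 := by
  revert i j
  decide

theorem pD2 : D2 := by
  intro r l t s h h0
  unfold G dG
  refine HasDerivWithinAt.fun_sum fun i _ => HasDerivWithinAt.fun_sum fun j _ => ?_
  by_cases hF : Far i j
  · simp only [if_pos hF]
    obtain ⟨h1, h2, h3, h4, h5, h6⟩ := d2_ind i j hF
    exact d2_f (X := fun u => PX (r u) i j) (Y := fun u => PY (r u) i j) (Z := fun u => PZ (r u) i j)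
      (d2_mul (h _ _ h1) (h _ _ h2)) (d2_mul (h _ _ h3) (h _ _ h4)) (d2_mul (h _ _ h5) (h _ _ h6))
      (mul_ne_zero (h0 _ _ h3) (h0 _ _ h4)) (mul_ne_zero (h0 _ _ h5) (h0 _ _ h6))
  · simp only [if_neg hF]
    exact hasDerivWithinAt_const t s 0

end Pool.Agent.H223.MB
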