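import Pool.Agent.H238.HF.MStm

/-!
# Positive semidefinite matrices of rank at most two (helper747)
-/

open scoped RealInnerProductSpace Topology
open Set Filter

namespace Pool.Agent.H223.MB

private theorem fac_one (M : Matrix (Fin 6) (Fin 6) ℝ) (hH : M.IsHermitian) (k : Fin 6) :
    dotProduct (⇑(hH.eigenvectorBasis k)) (⇑(hH.eigenvectorBasis k)) = (1 : ℝ) := by
  have h1 : ‖hH.eigenvectorBasis k‖ = 1 := hH.eigenvectorBasis.orthonormal.1 k
  have h2 : ‖hH.eigenvectorBasis k‖ ^ 2 = 1 := by rw [h1, one_pow]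
  rw [EuclideanSpace.real_norm_sq_eq] at h2
  rw [← h2]
  unfold dotProduct
  refine Finset.sum_congr rfl fun i _ => ?_
  rw [sq]

private theorem fac_entry (M : Matrix (Fin 6) (Fin 6) ℝ) (hH : M.IsHermitian) (i j : Fin 6) :
    M i j = ∑ k, hH.eigenvalues k *
      ((⇑(hH.eigenvectorBasis k)) i * (⇑(hH.eigenvectorBasis k)) j) := by
  have h := congrFun (congrFun hH.spectral_theorem i) j
  rw [Unitary.conjStarAlgAut_apply, Matrix.mul_apply] at h
  refine h.trans (Finset.sum_congr rfl fun k _ => ?_)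
  rw [Matrix.mul_diagonal, Matrix.star_apply, Matrix.IsHermitian.eigenvectorUnitary_apply,
    Matrix.IsHermitian.eigenvectorUnitary_apply]
  simp only [Function.comp_apply, RCLike.ofReal_real_eq_id, id_eq, star_trivial]
  ring

theorem pFAC : FAC := by
  intro M hsym hpos hrank
  have hH : M.IsHermitian := by
    rw [Matrix.IsHermitian, Matrix.conjTranspose_eq_transpose_of_trivial]
    exact hsym
  have hev : ∀ k, 0 ≤ hH.eigenvalues k := by
    intro k
    have h1 := hpos (⇑(hH.eigenvectorBasis k))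
    rw [hH.mulVec_eigenvectorBasis, dotProduct_smul, fac_one, smul_eq_mul, mul_one] at h1
    exact h1
  obtain ⟨t, hst, ht⟩ : ∃ t : Finset (Fin 6),
      (Finset.univ.filter fun k => hH.eigenvalues k ≠ 0) ⊆ t ∧ t.card = 2 := by
    apply Finset.exists_superset_card_eq
    · rw [hH.rank_eq_card_non_zero_eigs, Fintype.card_subtype] at hrank
      exact hrank
    · simp
  obtain ⟨a, b, hab, rfl⟩ := Finset.card_eq_two.mp ht
  refine ⟨fun i => Real.sqrt (hH.eigenvalues a) * (⇑(hH.eigenvectorBasis a)) i,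
    fun i => Real.sqrt (hH.eigenvalues b) * (⇑(hH.eigenvectorBasis b)) i, fun i j => ?_⟩
  rw [fac_entry M hH i j]
  have h1 : ∑ k, hH.eigenvalues k *
      ((⇑(hH.eigenvectorBasis k)) i * (⇑(hH.eigenvectorBasis k)) j) =
      ∑ k ∈ ({a, b} : Finset (Fin 6)), hH.eigenvalues k *
      ((⇑(hH.eigenvectorBasis k)) i * (⇑(hH.eigenvectorBasis k)) j) := by
    symm
    apply Finset.sum_subset (Finset.subset_univ _)
    intro k _ hk
    have h2 : hH.eigenvalues k = 0 := by
      by_contra h3
      exact hk (hst (Finset.mem_filter.mpr ⟨Finset.mem_univ k, h3⟩))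
    rw [h2, zero_mul]
  rw [h1, Finset.sum_pair hab]
  have ha := Real.mul_self_sqrt (hev a)
  have hb := Real.mul_self_sqrt (hev b)
  calc hH.eigenvalues a * ((⇑(hH.eigenvectorBasis a)) i * (⇑(hH.eigenvectorBasis a)) j) +
        hH.eigenvalues b * ((⇑(hH.eigenvectorBasis b)) i * (⇑(hH.eigenvectorBasis b)) j)
      = (Real.sqrt (hH.eigenvalues a) * Real.sqrt (hH.eigenvalues a)) *
          ((⇑(hH.eigenvectorBasis a)) i * (⇑(hH.eigenvectorBasis a)) j) +
        (Real.sqrt (hH.eigenvalues b) * Real.sqrt (hH.eigenvalues b)) *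
          ((⇑(hH.eigenvectorBasis b)) i * (⇑(hH.eigenvectorBasis b)) j) := by rw [ha, hb]
    _ = _ := by ring

end Pool.Agent.H223.MB
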