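import Pool.Agent.H238.HF.MStm

/-!
# Two relations: concyclic or collinear
-/

open scoped RealInnerProductSpace Topology
open Set Filter

namespace Pool.Agent.H223.MB

private lemma geo2_rel {p : Fin 6 → V} {q : ℝ × V × ℝ} (hq : q ∈ LinearMap.ker (Rel p)) (i : Fin 6) :
    q.1 + inner ℝ q.2.1 (p i) + q.2.2 * ‖p i‖ ^ 2 = 0 := by
  have h := congrFun (LinearMap.mem_ker.1 hq) i
  simpa [Rel] using h

private lemma geo2_span (p : Fin 6 → V) (S : Submodule ℝ V)
    (h : ∀ b ∈ S, ∀ i j, inner ℝ b (p i - p j) = 0) : vectorSpan ℝ (range p) ≤ Sᗮ := by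
  refine Submodule.span_le.2 ?_
  rintro x hx
  obtain ⟨_, ⟨i, rfl⟩, _, ⟨j, rfl⟩, rfl⟩ := Set.mem_vsub.1 hx
  rw [SetLike.mem_coe, Submodule.mem_orthogonal]
  intro b hb
  exact h b hb i j

private lemma geo2_eq_zero {p : Fin 6 → V} {q : ℝ × V × ℝ} (hq : q ∈ LinearMap.ker (Rel p))
    (hg : q.2.2 = 0) (hb : q.2.1 = 0) : q = 0 := by
  have h0 := geo2_rel hq 0
  rw [hg, hb] at h0
  simp only [inner_zero_left, zero_mul, add_zero] at h0
  exact Prod.ext h0 (Prod.ext hb hg)

theorem pGEO2 : GEO2 := by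
  intro p hK
  by_cases hγ : ∃ q ∈ LinearMap.ker (Rel p), q.2.2 ≠ 0
  · left
    obtain ⟨q, hq, hq0⟩ := hγ
    refine ⟨⟨-(1 / (2 * q.2.2)) • q.2.1, dist (p 0) (-(1 / (2 * q.2.2)) • q.2.1), ?_⟩, ?_⟩
    · rintro _ ⟨i, rfl⟩
      have key : ∀ i, dist (p i) (-(1 / (2 * q.2.2)) • q.2.1) ^ 2 =
          ‖q.2.1‖ ^ 2 / (4 * q.2.2 ^ 2) - q.1 / q.2.2 := by
        intro i
        have h := geo2_rel hq i
        rw [dist_eq_norm, neg_smul, sub_neg_eq_add, norm_add_sq_real, inner_smul_right, norm_smul,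
          real_inner_comm]
        have h3 : ‖p i‖ ^ 2 = -(q.1 + inner ℝ q.2.1 (p i)) / q.2.2 := by
          rw [eq_div_iff hq0]; linarith
        rw [h3, Real.norm_eq_abs, mul_pow, sq_abs]
        field_simp
        ring
      have h1 := key i
      have h2 := key 0
      rw [← h2] at h1
      exact (sq_eq_sq₀ dist_nonneg dist_nonneg).1 h1
    · -- a relation without quadratic part
      let g : LinearMap.ker (Rel p) →ₗ[ℝ] ℝ :=
        ((LinearMap.snd ℝ V ℝ).comp (LinearMap.snd ℝ ℝ (V × ℝ))).comp (LinearMap.ker (Rel p)).subtype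
      have hng : ¬ Function.Injective g := by
        intro hinj
        have := LinearMap.finrank_le_finrank_of_injective hinj
        rw [Module.finrank_self] at this
        omega
      rw [← LinearMap.ker_eq_bot, ← ne_eq, Submodule.ne_bot_iff] at hng
      obtain ⟨q', hq', hq'0⟩ := hng
      have hg' : (q' : ℝ × V × ℝ).2.2 = 0 := hq'
      have hb' : (q' : ℝ × V × ℝ).2.1 ≠ 0 := fun hb => hq'0 (Subtype.ext (geo2_eq_zero q'.2 hg' hb))
      rw [coplanar_iff_finrank_le_two]
      have hle := geo2_span p (ℝ ∙ (q' : ℝ × V × ℝ).2.1) (by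
        intro b hb i j
        obtain ⟨c, rfl⟩ := Submodule.mem_span_singleton.1 hb
        have h1 := geo2_rel q'.2 i
        have h2 := geo2_rel q'.2 j
        rw [hg'] at h1 h2
        rw [inner_smul_left, inner_sub_right]
        have : inner ℝ (q' : ℝ × V × ℝ).2.1 (p i) - inner ℝ (q' : ℝ × V × ℝ).2.1 (p j) = 0 := by
          linarith
        rw [this, mul_zero])
      have h3 : Fact (Module.finrank ℝ V = 2 + 1) := ⟨by simp⟩
      have h4 := Submodule.finrank_mono hle
      rw [Submodule.finrank_orthogonal_span_singleton (n := 2) hb'] at h4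
      exact h4
  · right
    push Not at hγ
    let g : LinearMap.ker (Rel p) →ₗ[ℝ] V :=
      ((LinearMap.fst ℝ V ℝ).comp (LinearMap.snd ℝ ℝ (V × ℝ))).comp (LinearMap.ker (Rel p)).subtype
    have hinj : Function.Injective g := by
      rw [← LinearMap.ker_eq_bot, Submodule.eq_bot_iff]
      intro q hq
      have hb : (q : ℝ × V × ℝ).2.1 = 0 := hq
      exact Subtype.ext (geo2_eq_zero q.2 (hγ _ q.2) hb)
    have hr : Module.finrank ℝ (LinearMap.range g) = Module.finrank ℝ (LinearMap.ker (Rel p)) :=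
      LinearMap.finrank_range_of_inj hinj
    rw [collinear_iff_finrank_le_one]
    have hle := geo2_span p (LinearMap.range g) (by
      rintro _ ⟨q, rfl⟩ i j
      have h1 := geo2_rel q.2 i
      have h2 := geo2_rel q.2 j
      rw [hγ _ q.2] at h1 h2
      rw [inner_sub_right]
      change inner ℝ (q : ℝ × V × ℝ).2.1 (p i) - inner ℝ (q : ℝ × V × ℝ).2.1 (p j) = 0
      linarith)
    have h4 := Submodule.finrank_mono hle
    have h5 := (LinearMap.range g).finrank_add_finrank_orthogonal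
    have h6 : Module.finrank ℝ V = 3 := by simp
    omega

end Pool.Agent.H223.MB
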