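import Pool.Agent.H238.HF.MStm

/-!
# Task MB-RANK: rank bound (helper51)
-/

open scoped RealInnerProductSpace Topology
open Set Filter

namespace Pool.Agent.H223.MB

theorem pRANK : RANK := by
  intro p M h
  have h1 := LinearMap.finrank_range_add_finrank_ker (Rel p)
  have hV : Module.finrank ℝ (ℝ × V × ℝ) = 5 := by
    rw [Module.finrank_prod, Module.finrank_prod, finrank_euclideanSpace_fin, Module.finrank_self]
  have h2 := LinearMap.finrank_range_add_finrank_ker M.mulVecLin
  have hF : Module.finrank ℝ (Fin 6 → ℝ) = 6 := by simp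
  have h3 : LinearMap.range (Rel p) ≤ LinearMap.ker M.mulVecLin := by
    rintro _ ⟨q, rfl⟩
    rw [LinearMap.mem_ker, Matrix.mulVecLin_apply]
    exact h q
  have h4 := Submodule.finrank_mono h3
  have h5 : M.rank = Module.finrank ℝ (LinearMap.range M.mulVecLin) := rfl
  omega

end Pool.Agent.H223.MB
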