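import Pool.Agent.H238.HF.MStm

open scoped RealInnerProductSpace Topology
open Set Filter

namespace Pool.Agent.H223.MB

/-- generic version of `dG` -/
private noncomputable def s1_D (a b c l : Fin 6 → Fin 6 → ℝ) : ℝ :=
  ∑ i, ∑ j, if Far i j then
    a i j * (l i (i + 1) + l j (j + 1)) +
    b i j * (l (i + 1) j + l i (j + 1)) +
    c i j * (l i j + l (i + 1) (j + 1)) else 0

private def s1_E (u v : Fin 6) (x y : Fin 6) : ℝ := if (x = u ∧ y = v) ∨ (x = v ∧ y = u) then 1 else 0

private theorem s1_AY {X Y Z : ℝ} (hX : 0 < X) (hY : 0 < Y) (hZ : 0 < Z) (h1 : Y ≤ X + Z) (h2 : Z ≤ X + Y) :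
    AY X Y Z ≤ 1 := by
  unfold AY
  rw [div_le_one (by positivity)]
  nlinarith

private theorem s1_AZ {X Y Z : ℝ} (hX : 0 < X) (hY : 0 < Y) (hZ : 0 < Z) :
    AZ X Y Z < -1 := by
  unfold AZ
  rw [div_lt_iff₀ (by positivity)]
  nlinarith [sq_nonneg (X + Y - Z), mul_pos hX hZ]

private theorem s1_sum0 {X Y Z : ℝ} (hY : 0 < Y) (hZ : 0 < Z) :
    AX X Y Z + AY X Y Z + AZ X Y Z = 0 := by
  unfold AX AY AZ
  field_simp
  ring

private theorem s1_expand (T : Fin 6 → Fin 6 → ℝ) : (∑ i, ∑ j, if Far i j then T i j else 0) =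
    (T 0 2 + T 0 3 + T 0 4) + (T 1 3 + T 1 4 + T 1 5) + (T 2 4 + T 2 5 + T 2 0) +
    (T 3 5 + T 3 0 + T 3 1) + (T 4 0 + T 4 1 + T 4 2) + (T 5 1 + T 5 2 + T 5 3) := by
  simp [Fin.sum_univ_six, Far]
  ring

private theorem s1_neg (a b c : Fin 6 → Fin 6 → ℝ) (hb : ∀ i j, Far i j → b i j ≤ 1)
    (hc : ∀ i j, Far i j → c i j < -1) (u v : Fin 6) (h : NonAdj u v) : s1_D a b c (s1_E u v) < 0 := by
  unfold s1_D
  rw [s1_expand]
  have b02 := hb 0 2 (by decide)
  have b03 := hb 0 3 (by decide)
  have b04 := hb 0 4 (by decide)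
  have b13 := hb 1 3 (by decide)
  have b14 := hb 1 4 (by decide)
  have b15 := hb 1 5 (by decide)
  have b24 := hb 2 4 (by decide)
  have b25 := hb 2 5 (by decide)
  have b20 := hb 2 0 (by decide)
  have b35 := hb 3 5 (by decide)
  have b30 := hb 3 0 (by decide)
  have b31 := hb 3 1 (by decide)
  have b40 := hb 4 0 (by decide)
  have b41 := hb 4 1 (by decide)
  have b42 := hb 4 2 (by decide)
  have b51 := hb 5 1 (by decide)
  have b52 := hb 5 2 (by decide)
  have b53 := hb 5 3 (by decide)
  have c02 := hc 0 2 (by decide)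
  have c03 := hc 0 3 (by decide)
  have c04 := hc 0 4 (by decide)
  have c13 := hc 1 3 (by decide)
  have c14 := hc 1 4 (by decide)
  have c15 := hc 1 5 (by decide)
  have c24 := hc 2 4 (by decide)
  have c25 := hc 2 5 (by decide)
  have c20 := hc 2 0 (by decide)
  have c35 := hc 3 5 (by decide)
  have c30 := hc 3 0 (by decide)
  have c31 := hc 3 1 (by decide)
  have c40 := hc 4 0 (by decide)
  have c41 := hc 4 1 (by decide)
  have c42 := hc 4 2 (by decide)
  have c51 := hc 5 1 (by decide)
  have c52 := hc 5 2 (by decide)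
  have c53 := hc 5 3 (by decide)
  fin_cases u <;> fin_cases v <;> simp [NonAdj] at h <;> simp [s1_E] <;> linarith

private theorem s1_add (a b c l g : Fin 6 → Fin 6 → ℝ) (t : ℝ) :
    s1_D a b c (fun x y => l x y + t * g x y) = s1_D a b c l + t * s1_D a b c g := by
  unfold s1_D
  rw [Finset.mul_sum, ← Finset.sum_add_distrib]
  refine Finset.sum_congr rfl fun i _ => ?_
  rw [Finset.mul_sum, ← Finset.sum_add_distrib]
  refine Finset.sum_congr rfl fun j _ => ?_
  split_ifs <;> ring

private theorem s1_zero (a b c : Fin 6 → Fin 6 → ℝ) :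
    s1_D a b c (fun _ _ => 0) = 0 := by
  unfold s1_D
  simp

private theorem s1_lin (a b c : Fin 6 → Fin 6 → ℝ) {ι : Type*} (s : Finset ι) (t : ι → ℝ)
    (g : ι → Fin 6 → Fin 6 → ℝ) :
    s1_D a b c (fun x y => ∑ k ∈ s, t k * g k x y) = ∑ k ∈ s, t k * s1_D a b c (g k) := by
  classical
  induction s using Finset.induction_on with
  | empty => simpa using s1_zero a b c
  | insert k s hk ih =>
    rw [Finset.sum_insert hk, ← ih, add_comm, ← s1_add]
    congr 1
    funext x y
    rw [Finset.sum_insert hk, add_comm]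

private theorem s1_congr (a b c l l' : Fin 6 → Fin 6 → ℝ) (h : ∀ x y, x ≠ y → l x y = l' x y) :
    s1_D a b c l = s1_D a b c l' := by
  unfold s1_D
  refine Finset.sum_congr rfl fun i _ => Finset.sum_congr rfl fun j _ => ?_
  split_ifs with hf
  · obtain ⟨h1, h2, h3⟩ := hf
    have hi : ∀ i : Fin 6, i ≠ i + 1 := by decide
    rw [h i (i+1) (hi i), h j (j+1) (hi j), h (i+1) j (Ne.symm h2), h i (j+1) h3, h i j (Ne.symm h1),
      h (i+1) (j+1) (by simpa using h1.symm)]
  · rfl

private theorem s1_dec (l : Fin 6 → Fin 6 → ℝ) (hl : ∀ i j, l i j = l j i) (x y : Fin 6) (hxy : x ≠ y) :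
    l x y = ∑ u, ∑ v, (if u = v then 0 else l u v / 2) * s1_E u v x y := by
  have : ∀ u v : Fin 6, (if u = v then 0 else l u v / 2) * s1_E u v x y =
      (if x = u then (if y = v then l u v / 2 else 0) else 0) +
      (if y = u then (if x = v then l u v / 2 else 0) else 0) := by
    intro u v
    unfold s1_E
    by_cases huv : u = v
    · subst huv
      by_cases h1 : x = u
      · subst h1
        simp [hxy, hxy.symm]
      · simp [h1]
    · by_cases h1 : x = u
      · subst h1
        by_cases h2 : y = v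
        · subst h2
          simp [hxy, hxy.symm]
        · simp [h2, huv, hxy.symm]
      · by_cases h2 : x = v
        · subst h2
          by_cases h3 : y = u
          · subst h3; simp [hxy, hxy.symm]
          · simp [h1, h3]
        · simp [h1, h2]
  simp only [this, Finset.sum_add_distrib, Finset.sum_ite_eq, Finset.mem_univ, if_true]
  have e1 : (∑ u : Fin 6, ∑ v : Fin 6, if x = u then (if y = v then l u v / 2 else 0) else 0) = l x y / 2 := by
    rw [Finset.sum_eq_single x]
    · simp
    · intro b _ hb; simp [hb.symm]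
    · simp
  have e2 : (∑ u : Fin 6, ∑ v : Fin 6, if y = u then (if x = v then l u v / 2 else 0) else 0) = l y x / 2 := by
    rw [Finset.sum_eq_single y]
    · simp
    · intro b _ hb; simp [hb.symm]
    · simp
  rw [e1, e2, hl y x]
  ring

/-- sum of the rows -/
private theorem s1_row (a b c : Fin 6 → Fin 6 → ℝ) (h0 : ∀ i j, Far i j → a i j + b i j + c i j = 0) (u : Fin 6) :
    ∑ v, (if u = v then 0 else s1_D a b c (s1_E u v)) = 0 := by
  have e : ∑ v, (if u = v then 0 else s1_D a b c (s1_E u v)) =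
      ∑ v, (if u = v then (0 : ℝ) else 1) * s1_D a b c (s1_E u v) := by
    refine Finset.sum_congr rfl fun v _ => ?_
    split_ifs <;> simp
  rw [e, ← s1_lin]
  have e2 : s1_D a b c (fun x y => ∑ v, (if u = v then (0 : ℝ) else 1) * s1_E u v x y) =
      s1_D a b c (fun x y => (if x = u then 1 else 0) + (if y = u then 1 else 0)) := by
    apply s1_congr
    intro x y hxy
    have : ∀ v : Fin 6, (if u = v then (0 : ℝ) else 1) * s1_E u v x y =
        (if y = v then (if x = u then 1 else 0) else 0) + (if x = v then (if y = u then 1 else 0) else 0) := by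
      intro v
      unfold s1_E
      by_cases huv : u = v
      · subst huv
        by_cases h1 : x = u
        · subst h1
          simp [hxy, hxy.symm]
        · simp [h1]
      · by_cases h1 : x = u
        · subst h1
          by_cases h2 : y = v
          · subst h2
            simp [hxy, hxy.symm]
          · simp [h2, huv, hxy.symm]
        · by_cases h2 : x = v
          · subst h2
            by_cases h3 : y = u
            · subst h3; simp [hxy, hxy.symm]
            · simp [h1, h3]
          · simp [h1, h2]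
    simp only [this, Finset.sum_add_distrib, Finset.sum_ite_eq, Finset.mem_univ, if_true]
  rw [e2]
  unfold s1_D
  refine Finset.sum_eq_zero fun i _ => Finset.sum_eq_zero fun j _ => ?_
  split_ifs with hf
  · have h := h0 i j hf
    have : c i j = -(a i j + b i j) := by linarith
    simp only [this]
    ring
  · rfl

theorem pS1 : S1 := by
  intro r hr
  set a : Fin 6 → Fin 6 → ℝ := fun i j => AX (PX r i j) (PY r i j) (PZ r i j) with ha
  set b : Fin 6 → Fin 6 → ℝ := fun i j => AY (PX r i j) (PY r i j) (PZ r i j) with hb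
  set c : Fin 6 → Fin 6 → ℝ := fun i j => AZ (PX r i j) (PY r i j) (PZ r i j) with hc
  have hD : ∀ l, dG r l = s1_D a b c l := fun l => rfl
  have hi : ∀ i : Fin 6, i ≠ i + 1 := by decide
  have pX : ∀ i j, Far i j → 0 < PX r i j := fun i j _ => mul_pos (hr.pos _ _ (hi i)) (hr.pos _ _ (hi j))
  have pY : ∀ i j, Far i j → 0 < PY r i j := fun i j hf =>
    mul_pos (hr.pos _ _ (Ne.symm hf.2.1)) (hr.pos _ _ hf.2.2)
  have pZ : ∀ i j, Far i j → 0 < PZ r i j := fun i j hf =>
    mul_pos (hr.pos _ _ (Ne.symm hf.1)) (hr.pos _ _ (by simpa using hf.1.symm))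
  have hbl : ∀ i j, Far i j → b i j ≤ 1 := fun i j hf =>
    s1_AY (pX i j hf) (pY i j hf) (pZ i j hf) (hr.ptol1 i j hf) (hr.ptol2 i j hf)
  have hcl : ∀ i j, Far i j → c i j < -1 := fun i j hf =>
    s1_AZ (pX i j hf) (pY i j hf) (pZ i j hf)
  have h0 : ∀ i j, Far i j → a i j + b i j + c i j = 0 := fun i j hf =>
    s1_sum0 (pY i j hf) (pZ i j hf)
  refine ⟨fun u v => if u = v then 0 else s1_D a b c (s1_E u v), ?_, ?_, ?_, ?_, ?_⟩
  · intro u v
    by_cases h : u = v
    · subst h; rfl
    · have h' : v ≠ u := Ne.symm h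
      simp only [if_neg h, if_neg h']
      congr 1
      funext x y
      unfold s1_E
      simp only [or_comm]
  · intro u; simp
  · intro u
    exact s1_row a b c h0 u
  · intro u v huv
    have : u ≠ v := Ne.symm huv.1
    simp only [if_neg this]
    exact s1_neg a b c hbl hcl u v huv
  · intro l hl
    rw [hD]
    have e1 : s1_D a b c l = s1_D a b c (fun x y => ∑ k : Fin 6 × Fin 6,
        (if k.1 = k.2 then 0 else l k.1 k.2 / 2) * s1_E k.1 k.2 x y) := by
      apply s1_congr
      intro x y hxy
      rw [Fintype.sum_prod_type]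
      exact s1_dec l hl x y hxy
    rw [e1, s1_lin, Fintype.sum_prod_type]
    refine Finset.sum_congr rfl fun u _ => Finset.sum_congr rfl fun v _ => ?_
    dsimp only
    split_ifs
    · simp
    · ring

end Pool.Agent.H223.MB
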