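import Pool.Agent.H238.HF.MStm

open scoped RealInnerProductSpace Topology
open Set Filter

namespace Pool.Agent.H223.MB

theorem se1_id (a b : V) (R x y w : ℝ) (ha : ‖a‖ = R) (hb : ‖b‖ = R) (hx : x ≠ 0) (hy : y ≠ 0)
    (hw : (x - y) ^ 2 = w) :
    ‖y • b - x • a‖ ^ 2 = x * y * (‖b - a‖ ^ 2 + R ^ 2 * w / (x * y)) := by
  have h1 : ‖y • b - x • a‖ ^ 2 = y ^ 2 * R ^ 2 - 2 * (y * x * ⟪b, a⟫) + x ^ 2 * R ^ 2 := by
    rw [norm_sub_sq_real, norm_smul, norm_smul, ha, hb, real_inner_smul_left,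
      real_inner_smul_right, mul_pow, mul_pow, Real.norm_eq_abs, Real.norm_eq_abs, sq_abs, sq_abs]
    ring
  have h2 : ‖b - a‖ ^ 2 = R ^ 2 - 2 * ⟪b, a⟫ + R ^ 2 := by
    rw [norm_sub_sq_real, ha, hb]
  have h3 : x * y * (R ^ 2 * w / (x * y)) = R ^ 2 * w :=
    mul_div_cancel₀ _ (mul_ne_zero hx hy)
  rw [h1, mul_add, h3, h2, ← hw]
  ring

theorem pSE1 (se0 : SE0) : SE1 := by
  intro p hp hmin L hL c R hR hc z
  have hpos : ∀ᶠ t in 𝓝 (0 : ℝ), ∀ i, 0 < 1 + t * z i := by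
    rw [eventually_all]
    intro i
    have h1 : ContinuousAt (fun t : ℝ => 1 + t * z i) 0 := by fun_prop
    refine h1.eventually (lt_mem_nhds ?_)
    simp
  have h := se0 p hp hmin L hL (fun i j => R ^ 2 * (z i - z j) ^ 2)
    (fun t i => c + (1 + t * z i) • (p i - c))
    (fun t i j => R ^ 2 * (z i - z j) ^ 2 / ((1 + t * z i) * (1 + t * z j)))
    (fun t i => 1 + t * z i) (fun i j => by ring) ?_ ?_ ?_ ?_ hpos ?_
  · have h2 : ∑ i, ∑ j, L i j / ‖p j - p i‖ ^ 2 * (R ^ 2 * (z i - z j) ^ 2) =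
        R ^ 2 * ∑ i, ∑ j, L i j / ‖p j - p i‖ ^ 2 * (z i - z j) ^ 2 := by
      rw [Finset.mul_sum]
      refine Finset.sum_congr rfl fun i _ => ?_
      rw [Finset.mul_sum]
      exact Finset.sum_congr rfl fun j _ => by ring
    have h3 : 0 ≤ R ^ 2 * ∑ i, ∑ j, L i j / ‖p j - p i‖ ^ 2 * (z i - z j) ^ 2 := by
      rw [← h2]
      exact h
    exact nonneg_of_mul_nonneg_right h3 (by positivity)
  · funext i
    simp
  · refine continuousAt_pi.2 fun i => ?_
    fun_prop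
  · intro i j
    refine ContinuousAt.div (by fun_prop) (by fun_prop) ?_
    simp
  · intro i j
    simp
  · filter_upwards [hpos] with t ht i j _
    have h1 : c + (1 + t * z j) • (p j - c) - (c + (1 + t * z i) • (p i - c)) =
        (1 + t * z j) • (p j - c) - (1 + t * z i) • (p i - c) := by abel
    have h2 : p j - p i = (p j - c) - (p i - c) := by abel
    have h3 := se1_id (p i - c) (p j - c) R (1 + t * z i) (1 + t * z j)
      (t ^ 2 * (z i - z j) ^ 2) (hc i) (hc j) (ht i).ne' (ht j).ne' (by ring)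
    rw [h1, h3, ← h2]
    ring

end Pool.Agent.H223.MB
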