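import Pool.Agent.H238.HF.MStm

open scoped RealInnerProductSpace Topology
open Set Filter

namespace Pool.Agent.H223.MB

private theorem se2_norm (x ν : V) (s : ℝ) (hν : ‖ν‖ = 1) (hx : ⟪ν, x⟫ = 0) :
    ‖x + s • ν‖ ^ 2 = ‖x‖ ^ 2 + s ^ 2 := by
  rw [norm_add_sq_real, inner_smul_right, real_inner_comm, hx, norm_smul, hν, mul_one,
    Real.norm_eq_abs, sq_abs]
  ring

theorem pSE2 (se0 : SE0) : SE2 := by
  intro p hp hmin L hL ν k hν hk z
  refine se0 p hp hmin L hL (fun i j => (z i - z j) ^ 2) (fun t i => p i + (t * z i) • ν)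
    (fun _ i j => (z i - z j) ^ 2) (fun _ _ => 1) ?_ ?_ ?_ ?_ ?_ ?_ ?_
  · intro i j
    ring
  · funext i
    simp
  · apply Continuous.continuousAt
    refine continuous_pi fun i => ?_
    exact continuous_const.add ((continuous_id.mul continuous_const).smul continuous_const)
  · exact fun _ _ => continuousAt_const
  · exact fun _ _ => rfl
  · exact Eventually.of_forall fun _ _ => one_pos
  · refine Eventually.of_forall fun t i j _ => ?_
    have e : (p j + (t * z j) • ν) - (p i + (t * z i) • ν) = (p j - p i) + (t * (z j - z i)) • ν := by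
      rw [mul_sub, sub_smul]
      abel
    have h0 : ⟪ν, p j - p i⟫ = 0 := by
      rw [inner_sub_right, hk, hk, sub_self]
    show ‖(p j + (t * z j) • ν) - (p i + (t * z i) • ν)‖ ^ 2 = _
    rw [e, se2_norm _ _ _ hν h0]
    ring

end Pool.Agent.H223.MB
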