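import Pool.Agent.H238.HF.MStm

/-!
# T1: two rays which are not parallel (helper134 for helper223)
-/

open scoped RealInnerProductSpace Topology
open Set Filter

namespace Pool.Agent.H223.MB

theorem pT1 : T1 := by
  intro a b h
  have hcont : ContinuousOn (fun s : ℝ => ‖s • a - (1 - s) • b‖) (Icc 0 1) := by
    apply Continuous.continuousOn
    fun_prop
  obtain ⟨x, hx, hmin⟩ := isCompact_Icc.exists_isMinOn (nonempty_Icc.2 zero_le_one) hcont
  have hpos : 0 < ‖x • a - (1 - x) • b‖ := by
    rw [norm_pos_iff]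
    intro h0
    obtain ⟨h1, h2⟩ := h x (1 - x) hx.1 (by linarith [hx.2]) (sub_eq_zero.1 h0)
    linarith
  refine ⟨‖x • a - (1 - x) • b‖, hpos, ?_⟩
  intro s t hs ht
  rcases (add_nonneg hs ht).eq_or_lt with h0 | h0
  · rw [← h0, mul_zero]
    exact norm_nonneg _
  · have h1 : s / (s + t) ∈ Icc (0 : ℝ) 1 :=
      ⟨div_nonneg hs h0.le, (div_le_one h0).2 (by linarith)⟩
    have h2 : ‖x • a - (1 - x) • b‖ ≤ ‖(s / (s + t)) • a - (1 - s / (s + t)) • b‖ := hmin h1
    have h3 : s • a - t • b = (s + t) • ((s / (s + t)) • a - (1 - s / (s + t)) • b) := by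
      rw [smul_sub, smul_smul, smul_smul]
      have e1 : (s + t) * (s / (s + t)) = s := mul_div_cancel₀ s h0.ne'
      have e2 : (s + t) * (1 - s / (s + t)) = t := by
        rw [mul_sub, e1]
        ring
      rw [e1, e2]
    rw [h3, norm_smul, Real.norm_eq_abs, abs_of_pos h0, mul_comm]
    exact mul_le_mul_of_nonneg_left h2 h0.le

end Pool.Agent.H223.MB
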