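import Pool.Agent.H238.HF.MStm

/-!
# T3: extension of the hat functions
-/

open scoped RealInnerProductSpace Topology
open Set Filter

namespace Pool.Agent.H223.MB

theorem pT3 (t2 : T2) : T3 := by
  intro p hp
  obtain ⟨C, hC, h⟩ := t2 p hp
  classical
  let S : Set V := {x | ∃ i : Fin 6, ∃ s ∈ Icc (0 : ℝ) 1, pt p i s = x}
  let g : Fin 6 → V → ℝ := fun k x =>
    if hx : ∃ q : Fin 6 × ℝ, q.2 ∈ Icc (0 : ℝ) 1 ∧ pt p q.1 q.2 = x then
      hat k hx.choose.1 hx.choose.2 else 0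
  have hg : ∀ (k i : Fin 6) (s : ℝ), s ∈ Icc (0 : ℝ) 1 → g k (pt p i s) = hat k i s := by
    intro k i s hs
    have hx : ∃ q : Fin 6 × ℝ, q.2 ∈ Icc (0 : ℝ) 1 ∧ pt p q.1 q.2 = pt p i s := ⟨(i, s), hs, rfl⟩
    have e := hx.choose_spec
    have e1 : g k (pt p i s) = hat k hx.choose.1 hx.choose.2 := dif_pos hx
    rw [e1]
    have e2 := h hx.choose.1 i k hx.choose.2 e.1 s hs
    rw [e.2, sub_self, norm_zero, mul_zero] at e2
    have e3 := abs_nonpos_iff.1 e2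
    linarith
  have hL : ∀ k, LipschitzOnWith ⟨C, hC⟩ (g k) S := by
    intro k
    apply LipschitzOnWith.of_dist_le_mul
    rintro x ⟨i, s, hs, rfl⟩ y ⟨j, t, ht, rfl⟩
    rw [hg k i s hs, hg k j t ht, Real.dist_eq, dist_eq_norm]
    exact h i j k s hs t ht
  choose φ hφ using fun k => (hL k).extend_real
  exact ⟨φ, ⟨C, hC⟩, fun k => (hφ k).1, fun k i s hs => by
    rw [← (hφ k).2 ⟨i, s, hs, rfl⟩, hg k i s hs]⟩

end Pool.Agent.H223.MB
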