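import Pool.Agent.H238.HF.MF1
import Pool.Agent.H238.HF.MF2
import Pool.Agent.H238.HF.MF3
import Pool.Agent.H238.HF.MD2
import Pool.Agent.H238.HF.MS1
import Pool.Agent.H238.HF.MHOM
import Pool.Agent.H238.HF.MC1b
import Pool.Agent.H238.HF.MC2
import Pool.Agent.H238.HF.MSE0c
import Pool.Agent.H238.HF.MSE1b
import Pool.Agent.H238.HF.MSE2
import Pool.Agent.H238.HF.MKER
import Pool.Agent.H238.HF.MRANK
import Pool.Agent.H238.HF.MLA1
import Pool.Agent.H238.HF.MFAC
import Pool.Agent.H238.HF.MLV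
import Pool.Agent.H238.HF.MGEO1
import Pool.Agent.H238.HF.MGEO2
import Pool.Agent.H238.HF.MT1
import Pool.Agent.H238.HF.MT2
import Pool.Agent.H238.HF.MT3b
import Pool.Agent.H238.HF.MT4b
import Pool.Agent.H238.HF.MT5
import Pool.Agent.H238.HF.MT6b

/-!
# Assembly of the project MP_6bf31b_an
-/

open scoped RealInnerProductSpace Topology
open Set Filter

namespace Pool.Agent.H223.MB

theorem asm1 (p : Fin 6 → V) (hp : Function.Injective p) (hmin : IsLocalMin energy p) :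
    EuclideanGeometry.Concyclic (range p) ∨ Collinear ℝ (range p) :=
  main1 (pF2 pF1) pF3 pS1 (pC2 (pC1 (pF2 pF1) pD2)) (pSE1 (pSE0 (pF2 pF1) pD2 pHOM))
    (pSE2 (pSE0 (pF2 pF1) pD2 pHOM)) pKER pRANK pLA1 pFAC pLV pGEO1 pGEO2 p hp hmin

theorem asmT5 : T5 := pT5 (pT3 (pT2 pT1)) pT4

theorem asm2 (p : Fin 6 → V) (hp : Embedded p)
    (hmin : ∀ q : Fin 6 → V, Embedded q → AmbientIsotopic (trace p) (trace q) → energy p ≤ energy q) :
    EuclideanGeometry.Concyclic (range p) :=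
  main2 asmT5 pT6 asm1 p hp hmin


end Pool.Agent.H223.MB
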