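import Pool.Agent.H238.HF.MStm2

/-!
# CONV: convex polygons are embedded
-/

open scoped RealInnerProductSpace Topology
open Set Filter

namespace Pool.Agent.H223.MB

/-- orientation of three points on the unit circle -/
noncomputable def conv_D (a b c : ℝ) : ℝ :=
  Real.sin (c - b) + Real.sin (b - a) + Real.sin (a - c)

theorem conv_D_cyc (a b c : ℝ) : conv_D a b c = conv_D b c a := by
  unfold conv_D
  ring

theorem conv_D_pos {a b c : ℝ} (h1 : a < b) (h2 : b < c) (h3 : c < a + 2 * Real.pi) :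
    0 < conv_D a b c := by
  obtain ⟨x, hx⟩ : ∃ x, x = (c - b) / 2 := ⟨_, rfl⟩
  obtain ⟨y, hy⟩ : ∃ y, y = (b - a) / 2 := ⟨_, rfl⟩
  have e1 : c - b = 2 * x := by rw [hx]; ring
  have e2 : b - a = 2 * y := by rw [hy]; ring
  have e3 : a - c = -(2 * (x + y)) := by rw [hx, hy]; ring
  have hxp : 0 < Real.sin x := Real.sin_pos_of_pos_of_lt_pi (by linarith) (by linarith)
  have hyp : 0 < Real.sin y := Real.sin_pos_of_pos_of_lt_pi (by linarith) (by linarith)
  have hxy : 0 < Real.sin (x + y) := Real.sin_pos_of_pos_of_lt_pi (by linarith) (by linarith)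
  have h4 : conv_D a b c = 4 * Real.sin x * Real.sin y * Real.sin (x + y) := by
    unfold conv_D
    rw [e1, e2, e3, Real.sin_neg, Real.sin_two_mul, Real.sin_two_mul, Real.sin_two_mul,
      Real.sin_add, Real.cos_add]
    have s1 := Real.sin_sq_add_cos_sq x
    have s2 := Real.sin_sq_add_cos_sq y
    linear_combination (-2 * Real.sin x * Real.cos x) * s2 + (-2 * Real.sin y * Real.cos y) * s1
  rw [h4]
  positivity

/-- the affine functional which vanishes on the line through the points with angles `a`, `b` -/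
noncomputable def conv_h (c : V) (R : ℝ) (e₁ e₂ : V) (a b : ℝ) (x : V) : ℝ :=
  (Real.cos b - Real.cos a) * (⟪e₂, x - c⟫ / R - Real.sin a) -
    (Real.sin b - Real.sin a) * (⟪e₁, x - c⟫ / R - Real.cos a)

theorem conv_h_circ {c : V} {R : ℝ} {e₁ e₂ : V} (hR : 0 < R) (h : ON e₁ e₂) (θ : Fin 6 → ℝ)
    (a b : ℝ) (k : Fin 6) :
    conv_h c R e₁ e₂ a b (circ c R e₁ e₂ θ k) = conv_D a b (θ k) := by
  obtain ⟨h1, h2, h3⟩ := h
  have h3' : ⟪e₂, e₁⟫ = 0 := by rw [real_inner_comm]; exact h3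
  have e : circ c R e₁ e₂ θ k - c = (R * Real.cos (θ k)) • e₁ + (R * Real.sin (θ k)) • e₂ := by
    unfold circ
    abel
  have g1 : ⟪e₁, circ c R e₁ e₂ θ k - c⟫ = R * Real.cos (θ k) := by
    rw [e, inner_add_right, inner_smul_right, inner_smul_right, real_inner_self_eq_norm_sq, h1, h3]
    ring
  have g2 : ⟪e₂, circ c R e₁ e₂ θ k - c⟫ = R * Real.sin (θ k) := by
    rw [e, inner_add_right, inner_smul_right, inner_smul_right, real_inner_self_eq_norm_sq, h2, h3']
    ring
  unfold conv_h conv_D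
  rw [g1, g2, mul_div_cancel_left₀ _ hR.ne', mul_div_cancel_left₀ _ hR.ne', Real.sin_sub,
    Real.sin_sub, Real.sin_sub]
  ring

theorem conv_h_seg (c : V) (R : ℝ) (e₁ e₂ : V) (a b : ℝ) (x y : V) (s t : ℝ) (hst : s + t = 1) :
    conv_h c R e₁ e₂ a b (s • x + t • y) =
      s * conv_h c R e₁ e₂ a b x + t * conv_h c R e₁ e₂ a b y := by
  have e : s • x + t • y - c = s • (x - c) + t • (y - c) := by
    have hc : s • c + t • c = c := by rw [← add_smul, hst, one_smul]
    rw [smul_sub, smul_sub]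
    calc s • x + t • y - c = s • x + t • y - (s • c + t • c) := by rw [hc]
      _ = _ := by abel
  unfold conv_h
  rw [e, inner_add_right, inner_add_right, inner_smul_right, inner_smul_right, inner_smul_right,
    inner_smul_right]
  have ht : t = 1 - s := by linarith
  subst ht
  ring

theorem conv_cases : ∀ i k : Fin 6, k ≠ i → k ≠ i + 1 →
    (i < i + 1 ∧ i + 1 < k) ∨ (k < i ∧ i < i + 1) ∨ (i + 1 < k ∧ k < i) := by
  decide

theorem conv_ne0 : ∀ k : Fin 6, k ≠ k + 1 + 1 := by decide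
theorem conv_ne1 : ∀ k : Fin 6, k + 1 + 1 ≠ k := by decide
theorem conv_ne2 : ∀ k : Fin 6, k + 1 + 1 ≠ k + 1 := by decide

theorem conv_key {θ : Fin 6 → ℝ} (hθ : Sorted θ) (i k : Fin 6) (h1 : k ≠ i) (h2 : k ≠ i + 1) :
    0 < conv_D (θ i) (θ (i + 1)) (θ k) := by
  obtain ⟨g0, g1, g2, g3, g4, g5⟩ := hθ
  have hm : StrictMono θ := by
    rw [Fin.strictMono_iff_lt_succ]
    intro i
    fin_cases i
    exacts [g0, g1, g2, g3, g4]
  have ht : ∀ p q r : Fin 6, p < q → q < r → 0 < conv_D (θ p) (θ q) (θ r) := by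
    intro p q r hpq hqr
    refine conv_D_pos (hm hpq) (hm hqr) ?_
    have k1 : θ 0 ≤ θ p := hm.monotone (Fin.zero_le p)
    have k2 : θ r ≤ θ 5 := hm.monotone (Fin.le_last r)
    linarith
  rcases conv_cases i k h1 h2 with ⟨a, b⟩ | ⟨a, b⟩ | ⟨a, b⟩
  · exact ht _ _ _ a b
  · rw [conv_D_cyc, conv_D_cyc]
    exact ht _ _ _ a b
  · rw [conv_D_cyc]
    exact ht _ _ _ a b

theorem pCONV : CONV := by
  intro c R e₁ e₂ θ hR hON hθ
  have hh : ∀ i k, conv_h c R e₁ e₂ (θ i) (θ (i + 1)) (circ c R e₁ e₂ θ k) =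
      conv_D (θ i) (θ (i + 1)) (θ k) := fun i k => conv_h_circ hR hON θ _ _ k
  have hz1 : ∀ a b : ℝ, conv_D a b a = 0 := by
    intro a b
    unfold conv_D
    rw [sub_self, Real.sin_zero, ← neg_sub b a, Real.sin_neg]
    ring
  have hz2 : ∀ a b : ℝ, conv_D a b b = 0 := by
    intro a b
    unfold conv_D
    rw [sub_self, Real.sin_zero, ← neg_sub b a, Real.sin_neg]
    ring
  refine ⟨?_, ?_⟩
  · intro k l hkl
    by_contra hne
    by_cases hl : l = k + 1
    · have h1 : k ≠ l + 1 := by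
        rw [hl]
        exact conv_ne0 k
      have h2 := conv_key hθ l k hne h1
      rw [← hh l k, hkl, hh l l, hz1] at h2
      exact lt_irrefl _ h2
    · have h2 := conv_key hθ k l (Ne.symm hne) hl
      rw [← hh k l, ← hkl, hh k k, hz1] at h2
      exact lt_irrefl _ h2
  · intro i j hij x hx
    obtain ⟨⟨a, b, ha, hb, hab, hx1⟩, ⟨a', b', ha', hb', hab', hx2⟩⟩ := hx
    have h0 : conv_h c R e₁ e₂ (θ i) (θ (i + 1)) x = 0 := by
      rw [← hx1, conv_h_seg _ _ _ _ _ _ _ _ _ _ hab, hh, hh, hz1, hz2]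
      ring
    have h1 : a' * conv_D (θ i) (θ (i + 1)) (θ j) + b' * conv_D (θ i) (θ (i + 1)) (θ (j + 1)) = 0 := by
      rw [← hh i j, ← hh i (j + 1), ← conv_h_seg _ _ _ _ _ _ _ _ _ _ hab', hx2]
      exact h0
    by_cases c1 : j = i + 1
    · subst c1
      rw [hz2, mul_zero, zero_add] at h1
      have h2 : 0 < conv_D (θ i) (θ (i + 1)) (θ (i + 1 + 1)) :=
        conv_key hθ i (i + 1 + 1) (conv_ne1 i) (conv_ne2 i)
      have hb0 : b' = 0 := (mul_eq_zero.1 h1).resolve_right h2.ne'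
      have ha1 : a' = 1 := by linarith
      rw [hb0, ha1, zero_smul, one_smul, add_zero] at hx2
      rw [← hx2]
      exact ⟨Or.inr rfl, Or.inl rfl⟩
    · by_cases c2 : j + 1 = i
      · subst c2
        rw [hz1, mul_zero, add_zero] at h1
        have h2 : 0 < conv_D (θ (j + 1)) (θ (j + 1 + 1)) (θ j) :=
          conv_key hθ (j + 1) j (Ne.symm hij) c1
        have ha0 : a' = 0 := (mul_eq_zero.1 h1).resolve_right h2.ne'
        have hb1 : b' = 1 := by linarith
        rw [hb1, ha0, zero_smul, one_smul, zero_add] at hx2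
        rw [← hx2]
        exact ⟨Or.inl rfl, Or.inr rfl⟩
      · exfalso
        have h2 := conv_key hθ i j (Ne.symm hij) c1
        have h3 := conv_key hθ i (j + 1) c2 (fun h => hij (add_right_cancel h).symm)
        rcases ha'.eq_or_lt with h4 | h4
        · have h5 : b' = 1 := by linarith
          rw [← h4, h5] at h1
          linarith
        · have h5 : 0 < a' * conv_D (θ i) (θ (i + 1)) (θ j) := mul_pos h4 h2
          have h6 : 0 ≤ b' * conv_D (θ i) (θ (i + 1)) (θ (j + 1)) := mul_nonneg hb' h3.le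
          linarith

end Pool.Agent.H223.MB
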