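import Pool.Agent.H238.HF.MStm2

/-!
# Regular plane hexagons are all isotopic
-/

open scoped RealInnerProductSpace Topology
open Set Filter

namespace Pool.Agent.H223.MB

/-- the angles of the regular hexagon -/
noncomputable def reg_th : Fin 6 → ℝ := fun i => (i : ℝ) * (Real.pi / 3)

theorem reg_sorted : Sorted reg_th := by
  have hp := Real.pi_pos
  have e0 : reg_th 0 = 0 := by simp [reg_th]
  have e1 : reg_th 1 = Real.pi / 3 := by simp [reg_th]
  have e2 : reg_th 2 = 2 * (Real.pi / 3) := by simp [reg_th]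
  have e3 : reg_th 3 = 3 * (Real.pi / 3) := by simp [reg_th]
  have e4 : reg_th 4 = 4 * (Real.pi / 3) := by simp [reg_th]
  have e5 : reg_th 5 = 5 * (Real.pi / 3) := by simp [reg_th]
  unfold Sorted
  rw [e0, e1, e2, e3, e4, e5]
  refine ⟨?_, ?_, ?_, ?_, ?_, ?_⟩ <;> linarith

theorem reg_path (pathl : PATHL) (conv : CONV) (c : ℝ → V) (R : ℝ → ℝ) (u v : ℝ → V)
    (hc : ContinuousOn c (Icc 0 1)) (hR : ContinuousOn R (Icc 0 1))
    (hu : ContinuousOn u (Icc 0 1)) (hv : ContinuousOn v (Icc 0 1))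
    (hR0 : ∀ t ∈ Icc (0 : ℝ) 1, 0 < R t) (hon : ∀ t ∈ Icc (0 : ℝ) 1, ON (u t) (v t)) :
    AmbientIsotopic (trace (circ (c 0) (R 0) (u 0) (v 0) reg_th))
      (trace (circ (c 1) (R 1) (u 1) (v 1) reg_th)) := by
  have h := pathl (fun t => circ (c t) (R t) (u t) (v t) reg_th) ?_ ?_
  · exact h
  · rw [continuousOn_pi]
    intro i
    have e : (fun t => circ (c t) (R t) (u t) (v t) reg_th i)
        = fun t => c t + (R t * Real.cos (reg_th i)) • u t + (R t * Real.sin (reg_th i)) • v t := rfl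
    rw [e]
    exact (hc.add ((hR.mul continuousOn_const).smul hu)).add
      ((hR.mul continuousOn_const).smul hv)
  · intro t ht
    exact conv _ _ _ _ _ (hR0 t ht) (hon t ht) reg_sorted

/-- the frames are connected -/
def reg_C (a b a' b' : V) : Prop :=
  AmbientIsotopic (trace (circ 0 1 a b reg_th)) (trace (circ 0 1 a' b' reg_th))

theorem reg_rot (pathl : PATHL) (conv : CONV) (a b : V) (h : ON a b) : reg_C a b b (-a) := by
  obtain ⟨h1, h2, h3⟩ := h
  have h3' : ⟪b, a⟫ = 0 := by rw [real_inner_comm]; exact h3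
  have ha : ⟪a, a⟫ = 1 := by rw [real_inner_self_eq_norm_sq, h1]; norm_num
  have hb : ⟪b, b⟫ = 1 := by rw [real_inner_self_eq_norm_sq, h2]; norm_num
  have hp := reg_path pathl conv (fun _ => 0) (fun _ => 1)
    (fun t => Real.cos (Real.pi / 2 * t) • a + Real.sin (Real.pi / 2 * t) • b)
    (fun t => -(Real.sin (Real.pi / 2 * t)) • a + Real.cos (Real.pi / 2 * t) • b)
    continuousOn_const continuousOn_const
    (by fun_prop) (by fun_prop) (fun _ _ => one_pos) ?_
  · simpa [reg_C] using hp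
  · intro t _
    have hsc := Real.sin_sq_add_cos_sq (Real.pi / 2 * t)
    refine ⟨?_, ?_, ?_⟩
    · have : ‖Real.cos (Real.pi / 2 * t) • a + Real.sin (Real.pi / 2 * t) • b‖ ^ 2 = 1 := by
        rw [← real_inner_self_eq_norm_sq]
        simp only [inner_add_left, inner_add_right, real_inner_smul_left, real_inner_smul_right,
          ha, hb, h3, h3']
        linarith
      exact (pow_eq_one_iff_of_nonneg (norm_nonneg _) two_ne_zero).1 this
    · have : ‖-(Real.sin (Real.pi / 2 * t)) • a + Real.cos (Real.pi / 2 * t) • b‖ ^ 2 = 1 := by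
        rw [← real_inner_self_eq_norm_sq]
        simp only [inner_add_left, inner_add_right, real_inner_smul_left, real_inner_smul_right,
          ha, hb, h3, h3']
        linarith
      exact (pow_eq_one_iff_of_nonneg (norm_nonneg _) two_ne_zero).1 this
    · simp only [inner_add_left, inner_add_right, real_inner_smul_left, real_inner_smul_right,
        ha, hb, h3, h3']
      ring

/-- moving the second vector -/
theorem reg_mv (pathl : PATHL) (conv : CONV) (a b w : V) (h : ON a b) (h' : ON a w)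
    (hne : w ≠ -b) : reg_C a b a w := by
  obtain ⟨h1, h2, h3⟩ := h
  obtain ⟨-, h5, h6⟩ := h'
  have hnz : ∀ t ∈ Icc (0 : ℝ) 1, (1 - t) • b + t • w ≠ 0 := by
    intro t ht h0
    have e1 : (1 - t) • b = -(t • w) := eq_neg_of_add_eq_zero_left h0
    have e2 := congrArg norm e1
    rw [norm_neg, norm_smul, norm_smul, h2, h5, Real.norm_eq_abs, Real.norm_eq_abs,
      abs_of_nonneg (by linarith [ht.2]), abs_of_nonneg ht.1, mul_one, mul_one] at e2
    have e3 : t = 1 / 2 := by linarith
    rw [e3] at e1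
    apply hne
    have e4 : (1 / 2 : ℝ) • b = (1 / 2 : ℝ) • (-w) := by
      rw [smul_neg, ← e1]
      norm_num
    have e5 := smul_right_injective V (by norm_num : (1 / 2 : ℝ) ≠ 0) e4
    rw [e5, neg_neg]
  have hp := reg_path pathl conv (fun _ => 0) (fun _ => 1) (fun _ => a)
    (fun t => ‖(1 - t) • b + t • w‖⁻¹ • ((1 - t) • b + t • w))
    continuousOn_const continuousOn_const continuousOn_const
    (by
      have hcc : ContinuousOn (fun t : ℝ => (1 - t) • b + t • w) (Icc 0 1) := by fun_prop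
      exact (hcc.norm.inv₀ (fun t ht => norm_ne_zero_iff.2 (hnz t ht))).smul hcc)
    (fun _ _ => one_pos) ?_
  · simpa [reg_C, h2, h5] using hp
  · intro t ht
    refine ⟨h1, ?_, ?_⟩
    · rw [norm_smul, norm_inv, norm_norm, inv_mul_cancel₀ (norm_ne_zero_iff.2 (hnz t ht))]
    · change ⟪a, ‖(1 - t) • b + t • w‖⁻¹ • ((1 - t) • b + t • w)⟫ = 0
      rw [real_inner_smul_right, inner_add_right, real_inner_smul_right, real_inner_smul_right,
        h3, h6]
      ring

/-- a unit vector orthogonal to two given ones -/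
theorem reg_orth (a b : V) : ∃ n : V, ‖n‖ = 1 ∧ ⟪a, n⟫ = 0 ∧ ⟪b, n⟫ = 0 := by
  classical
  have h1 : Module.finrank ℝ (Submodule.span ℝ ({a, b} : Set V)) ≤ 2 := by
    have h2 := finrank_span_finset_le_card (R := ℝ) ({a, b} : Finset V)
    have h3 : ({a, b} : Finset V).card ≤ 2 := Finset.card_le_two
    have h4 : ((({a, b} : Finset V)) : Set V) = {a, b} := by simp
    rw [h4] at h2
    exact h2.trans h3
  have h2 := Submodule.finrank_add_finrank_orthogonal (Submodule.span ℝ ({a, b} : Set V))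
  rw [finrank_euclideanSpace_fin] at h2
  have h3 : (Submodule.span ℝ ({a, b} : Set V))ᗮ ≠ ⊥ := by
    intro h
    rw [h, finrank_bot] at h2
    omega
  obtain ⟨v, hv, hv0⟩ := Submodule.exists_mem_ne_zero_of_ne_bot h3
  have hn : ‖v‖ ≠ 0 := norm_ne_zero_iff.2 hv0
  have ho := (Submodule.mem_orthogonal _ _).1 hv
  refine ⟨‖v‖⁻¹ • v, ?_, ?_, ?_⟩
  · rw [norm_smul, norm_inv, norm_norm, inv_mul_cancel₀ hn]
  · rw [real_inner_smul_right, ho a (Submodule.subset_span (by simp)), mul_zero]
  · rw [real_inner_smul_right, ho b (Submodule.subset_span (by simp)), mul_zero]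

theorem reg_mv' (ai : AI) (pathl : PATHL) (conv : CONV) (a b w : V) (h : ON a b) (h' : ON a w) :
    reg_C a b a w := by
  by_cases hne : w = -b
  · obtain ⟨n, hn1, hn2, hn3⟩ := reg_orth a b
    have hb : ⟪b, b⟫ = 1 := by rw [real_inner_self_eq_norm_sq, h.2.1]; norm_num
    have s1 : reg_C a b a n := by
      refine reg_mv pathl conv a b n h ⟨h.1, hn1, hn2⟩ ?_
      intro e
      rw [e, inner_neg_right, hb] at hn3
      norm_num at hn3
    have s2 : reg_C a n a w := by
      refine reg_mv pathl conv a n w ⟨h.1, hn1, hn2⟩ h' ?_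
      intro e
      have e2 : n = b := by
        rw [hne] at e
        exact (neg_injective e).symm
      rw [e2, hb] at hn3
      norm_num at hn3
    exact ai.2.1 _ _ _ s1 s2
  · exact reg_mv pathl conv a b w h h' hne

theorem reg_all (ai : AI) (pathl : PATHL) (conv : CONV) (a b a' b' : V) (h : ON a b)
    (h' : ON a' b') : reg_C a b a' b' := by
  obtain ⟨w, hw1, hw2, hw3⟩ := reg_orth a a'
  have hw2' : ⟪w, a⟫ = 0 := by rw [real_inner_comm]; exact hw2
  have hw3' : ⟪w, a'⟫ = 0 := by rw [real_inner_comm]; exact hw3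
  have s1 : reg_C a b a w := reg_mv' ai pathl conv a b w h ⟨h.1, hw1, hw2⟩
  have s2 : reg_C a w w (-a) := reg_rot pathl conv a w ⟨h.1, hw1, hw2⟩
  have s3 : reg_C w (-a) w a' := reg_mv' ai pathl conv w (-a) a'
    ⟨hw1, by rw [norm_neg]; exact h.1, by rw [inner_neg_right, hw2', neg_zero]⟩
    ⟨hw1, h'.1, hw3'⟩
  have s4 : reg_C w a' a' (-w) := reg_rot pathl conv w a' ⟨hw1, h'.1, hw3'⟩
  have s5 : reg_C a' (-w) a' b' := reg_mv' ai pathl conv a' (-w) b'
    ⟨h'.1, by rw [norm_neg]; exact hw1, by rw [inner_neg_right, hw3, neg_zero]⟩ h'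
  exact ai.2.1 _ _ _ s1 (ai.2.1 _ _ _ s2 (ai.2.1 _ _ _ s3 (ai.2.1 _ _ _ s4 s5)))

theorem pREG (ai : AI) (pathl : PATHL) (conv : CONV) : REG := by
  intro c R e₁ e₂ hR hon
  have s1 : AmbientIsotopic (trace (circ c R e₁ e₂ reg_th)) (trace (circ 0 1 e₁ e₂ reg_th)) := by
    have hp := reg_path pathl conv (fun t => (1 - t) • c) (fun t => (1 - t) * R + t)
      (fun _ => e₁) (fun _ => e₂) (by fun_prop) (by fun_prop) continuousOn_const
      continuousOn_const (fun t ht => ?_) (fun _ _ => hon)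
    · simpa using hp
    · have h1 := ht.1
      have h2 := ht.2
      rcases eq_or_lt_of_le h1 with h3 | h3
      · rw [← h3]
        simpa using hR
      · have : 0 ≤ (1 - t) * R := mul_nonneg (by linarith) hR.le
        linarith
  have hE : ON (EuclideanSpace.single 0 1 : V) (EuclideanSpace.single 1 1) := by
    refine ⟨by simp, by simp, ?_⟩
    rw [EuclideanSpace.inner_single_left]
    simp
  exact ai.2.1 _ _ _ s1 (reg_all ai pathl conv e₁ e₂ _ _ hon hE)

end Pool.Agent.H223.MB
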