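import Pool.Agent.H238.HF.KStm
import Pool.Graph.R_seed8.Helper22.LC.Knot

set_option autoImplicit false

open Topology Set Filter

namespace Pool.Agent.H238.HK

open Pool.Agent.Helper22.LC (core isCov lab lab_inj mono_chart Pers pers_ev ite_ev ite_ev'
  comm_transfer)
open Pool.Agent.H223.MB (V trace Embedded AmbientIsotopic circ)

/-- Coordinates. -/
private noncomputable def coordV : (ℝ × ℝ × ℝ) ≃ₜ V where
  toFun p := !₂[p.1, p.2.1, p.2.2]
  invFun p := (p 0, p 1, p 2)
  left_inv p := by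
    ext <;> simp
  right_inv p := by
    ext i
    fin_cases i <;> simp
  continuous_toFun := by fun_prop
  continuous_invFun := by fun_prop

theorem pKNOT (h1 : NCT) (h2 : CRC) (h3 : TRP) (h4 : TRQ) : KNOT := by
  rintro ⟨H, -, hhom, -, him⟩
  obtain ⟨x, α, β, hne⟩ := h1
  apply hne
  have hH1 : IsHomeomorph (H 1) := hhom 1 ⟨zero_le_one, le_rfl⟩
  let Φ : V ≃ₜ V := hH1.homeomorph (H 1)
  have hΦ : ∀ z, Φ z = H 1 z := fun _ => rfl
  let g : (ℝ × ℝ × ℝ) ≃ₜ (ℝ × ℝ × ℝ) := (coordV.trans Φ).trans coordV.symm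
  have hg : ∀ p : ℝ × ℝ × ℝ, p ∈ TK ↔ g p ∈ RK := by
    intro p
    have e1 : p ∈ TK ↔ coordV p ∈ trace P0 := by
      rw [h3]
      have e2 : ((coordV p) 0, (coordV p) 1, (coordV p) 2) = p := coordV.symm_apply_apply p
      rw [e2]
    have e3 : coordV p ∈ trace P0 ↔ Φ (coordV p) ∈ trace Q0 := by
      rw [← him, hΦ]
      exact (hH1.injective.mem_set_image).symm
    rw [e1, e3, h4]
    exact Iff.rfl
  let f : TC ≃ₜ RC := g.subtype (fun p => not_congr (hg p))
  exact comm_transfer f h2 x α β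

end Pool.Agent.H238.HK
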