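import Pool.Agent.H238.HF.KDefs

/-!
# RBS: the set `B` is simply connected
-/

set_option autoImplicit false

open Topology Set Filter

namespace Pool.Agent.H238.HK

open Pool.Agent.Helper22.LC (core isCov lab lab_inj mono_chart Pers pers_ev ite_ev ite_ev')

private theorem rbs_notMem {x y z : ℝ} (h : z < 0 ∨ ff x y ≠ √3) : ((x, y, z) : ℝ × ℝ × ℝ) ∉ RK := by
  rintro ⟨h1, h2⟩
  rcases h with h | h
  · exact h.ne h1
  · exact h h2

private def rbs_mk (x y z : ℝ) (h : z < 0 ∨ ff x y ≠ √3) : RB := ⟨⟨(x, y, z), rbs_notMem h⟩, h⟩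

private theorem rbs_mk_continuous {Y : Type*} [TopologicalSpace Y] {a b c : Y → ℝ}
    (ha : Continuous a) (hb : Continuous b) (hc : Continuous c)
    (h : ∀ q, c q < 0 ∨ ff (a q) (b q) ≠ √3) :
    Continuous fun q => rbs_mk (a q) (b q) (c q) (h q) :=
  Continuous.subtype_mk (Continuous.subtype_mk (ha.prodMk (hb.prodMk hc)) _) _

private theorem rbs_h1 (x y z s : ℝ) (h : z < 0 ∨ ff x y ≠ √3) (hs : 0 ≤ s) :
    z - s * (1 + |z|) < 0 ∨ ff x y ≠ √3 := by
  rcases h with h | h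
  · left
    have := mul_nonneg hs (add_nonneg zero_le_one (abs_nonneg z))
    linarith
  · exact Or.inr h

private theorem rbs_h2 (x y z s : ℝ) (hs : 0 ≤ s) (hs1 : s ≤ 1) :
    (1 - s) * (z - (1 + |z|)) - s < 0 ∨ ff ((1 - s) * x) ((1 - s) * y) ≠ √3 := by
  left
  have h1 : z - (1 + |z|) ≤ -1 := by linarith [le_abs_self z]
  nlinarith [mul_le_mul_of_nonneg_left h1 (sub_nonneg.2 hs1)]

private theorem rbs_h3 (x y z : ℝ) : z - (1 + |z|) < 0 ∨ ff x y ≠ √3 := by
  left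
  linarith [le_abs_self z]

private noncomputable def rbs_phi : C(RB, RB) where
  toFun p := rbs_mk p.1.1.1 p.1.1.2.1 (p.1.1.2.2 - (1 + |p.1.1.2.2|)) (rbs_h3 _ _ _)
  continuous_toFun := rbs_mk_continuous (by fun_prop) (by fun_prop) (by fun_prop) _

private noncomputable def rbs_H1 : ContinuousMap.Homotopy (ContinuousMap.id RB) rbs_phi where
  toFun q := rbs_mk q.2.1.1.1 q.2.1.1.2.1 (q.2.1.1.2.2 - (q.1 : ℝ) * (1 + |q.2.1.1.2.2|))
    (rbs_h1 _ _ _ _ q.2.2 q.1.2.1)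
  continuous_toFun := rbs_mk_continuous (by fun_prop) (by fun_prop) (by fun_prop) _
  map_zero_left p := by
    refine Subtype.ext (Subtype.ext ?_)
    simp [rbs_mk]
  map_one_left p := by
    refine Subtype.ext (Subtype.ext ?_)
    simp [rbs_mk, rbs_phi]

private noncomputable def rbs_H2 : ContinuousMap.Homotopy rbs_phi
    (ContinuousMap.const RB (rbs_mk 0 0 (-1) (Or.inl (by norm_num)))) where
  toFun q := rbs_mk ((1 - (q.1 : ℝ)) * q.2.1.1.1) ((1 - (q.1 : ℝ)) * q.2.1.1.2.1)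
    ((1 - (q.1 : ℝ)) * (q.2.1.1.2.2 - (1 + |q.2.1.1.2.2|)) - (q.1 : ℝ))
    (rbs_h2 _ _ _ _ q.1.2.1 q.1.2.2)
  continuous_toFun := rbs_mk_continuous (by fun_prop) (by fun_prop) (by fun_prop) _
  map_zero_left p := by
    refine Subtype.ext (Subtype.ext ?_)
    simp [rbs_mk, rbs_phi]
  map_one_left p := by
    refine Subtype.ext (Subtype.ext ?_)
    simp [rbs_mk]

theorem pRBS : RBS := by
  have h : ContractibleSpace RB := by
    rw [contractible_iff_id_nullhomotopic]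
    exact ⟨_, ContinuousMap.Homotopic.trans ⟨rbs_H1⟩ ⟨rbs_H2⟩⟩
  exact SimplyConnectedSpace.ofContractible RB

end Pool.Agent.H238.HK
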