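import Pool.Agent.H238.HF.KDefs

set_option autoImplicit false
open Topology Set Filter
namespace Pool.Agent.H238.HK
open Pool.Agent.Helper22.LC (core isCov lab lab_inj mono_chart Pers pers_ev ite_ev ite_ev')

private theorem ff_lt {x y : ℝ} : ff x y < √3 ↔ |√3 * x + y| < √3 ∧ |√3 * x - y| < √3 ∧ 2 * |y| < √3 := by
  unfold ff
  rw [max_lt_iff, max_lt_iff, and_assoc]

private theorem ff_sm {x y t : ℝ} (h0 : 0 ≤ t) (h1 : t ≤ 1) (h : ff x y < √3) : ff (t * x) (t * y) < √3 := by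
  rw [ff_lt] at h ⊢
  obtain ⟨a, b, c⟩ := h
  have e1 : √3 * (t * x) + t * y = t * (√3 * x + y) := by ring
  have e2 : √3 * (t * x) - t * y = t * (√3 * x - y) := by ring
  rw [e1, e2, abs_mul, abs_mul, abs_mul, abs_of_nonneg h0]
  have p1 := abs_nonneg (√3 * x + y)
  have p2 := abs_nonneg (√3 * x - y)
  have p3 := abs_nonneg y
  refine ⟨?_, ?_, ?_⟩ <;> nlinarith

theorem pRIO : RIO := by
  have h3 : (0 : ℝ) < √3 := Real.sqrt_pos.2 (by norm_num)
  have hz : ff 0 0 < √3 := by rw [ff_lt]; simp [h3]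
  have hn : ∀ q : ℝ × ℝ × ℝ, ff q.1 q.2.1 < √3 → q ∉ RK := fun q hq hk => hq.ne hk.2
  refine ⟨⟨(0, 0, 0), hn _ hz⟩, hz, fun {y} hy => ?_⟩
  have hy' : ff y.1.1 y.1.2.1 < √3 := hy
  have key : ∀ t : unitInterval, ff ((t : ℝ) * y.1.1) ((t : ℝ) * y.1.2.1) < √3 :=
    fun t => ff_sm t.2.1 t.2.2 hy'
  refine ⟨{ toFun := fun t => ⟨((t : ℝ) * y.1.1, (t : ℝ) * y.1.2.1, (t : ℝ) * y.1.2.2), hn _ (key t)⟩
            continuous_toFun := ?_
            source' := ?_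
            target' := ?_ }, fun t => key t⟩
  · exact Continuous.subtype_mk (by fun_prop) _
  · apply Subtype.ext; simp
  · apply Subtype.ext; simp

end Pool.Agent.H238.HK
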