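import Pool.Agent.H238.HF.KDefs

/-!
# The outer part of the complement of the regular hexagon is path connected
-/

set_option autoImplicit false

open Topology Set Filter

namespace Pool.Agent.H238.HK

private lemma ff_smul (t x y : ℝ) (ht : 0 ≤ t) : ff (t * x) (t * y) = t * ff x y := by
  unfold ff
  rw [mul_max_of_nonneg _ _ ht, mul_max_of_nonneg _ _ ht]
  have e1 : √3 * (t * x) + t * y = t * (√3 * x + y) := by ring
  have e2 : √3 * (t * x) - t * y = t * (√3 * x - y) := by ring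
  rw [e1, e2, abs_mul, abs_mul, abs_mul, abs_of_nonneg ht]
  congr 1
  ring

private lemma ff_cont : Continuous fun v : ℝ × ℝ => ff v.1 v.2 := by
  unfold ff
  fun_prop

private lemma ff_nonneg (x y : ℝ) : 0 ≤ ff x y :=
  (mul_nonneg zero_le_two (abs_nonneg y)).trans (le_max_right _ _)

private lemma ff_pos {v : ℝ × ℝ} (hv : v ≠ 0) : 0 < ff v.1 v.2 := by
  by_cases hy : v.2 = 0
  · have hx : v.1 ≠ 0 := by
      intro hx
      exact hv (Prod.ext hx hy)
    have h1 : |√3 * v.1 + v.2| ≤ ff v.1 v.2 := (le_max_left _ _).trans (le_max_left _ _)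
    have h2 : 0 < |√3 * v.1 + v.2| := by
      rw [hy, add_zero]
      exact abs_pos.2 (mul_ne_zero (by positivity) hx)
    linarith
  · have h1 : 2 * |v.2| ≤ ff v.1 v.2 := le_max_right _ _
    have h2 : 0 < |v.2| := abs_pos.2 hy
    linarith

private lemma ff_zero : ff 0 0 = 0 := by
  unfold ff
  simp

private lemma outer : IsPathConnected {p : ℝ × ℝ × ℝ | √3 < ff p.1 p.2.1} := by
  have hs3 : (0 : ℝ) < √3 := by positivity
  have hrank : 1 < Module.rank ℝ (ℝ × ℝ) := by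
    have h2 : Module.finrank ℝ (ℝ × ℝ) = 2 := by simp
    rw [← Module.finrank_eq_rank, h2]
    exact_mod_cast (by norm_num : (1 : ℕ) < 2)
  have hD : IsPathConnected (({(0 : ℝ × ℝ)}ᶜ : Set (ℝ × ℝ)) ×ˢ (univ : Set ℝ)) :=
    (isPathConnected_compl_singleton_of_one_lt_rank hrank (0 : ℝ × ℝ)).prod isPathConnected_univ
  have himg : (fun w : (ℝ × ℝ) × ℝ => (((1 + √3 / ff w.1.1 w.1.2) * w.1.1,
      (1 + √3 / ff w.1.1 w.1.2) * w.1.2, w.2) : ℝ × ℝ × ℝ)) ''
      (({(0 : ℝ × ℝ)}ᶜ : Set (ℝ × ℝ)) ×ˢ (univ : Set ℝ)) =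
      {p : ℝ × ℝ × ℝ | √3 < ff p.1 p.2.1} := by
    ext p
    constructor
    · rintro ⟨w, hw, rfl⟩
      have hw0 : w.1 ≠ 0 := hw.1
      have hf := ff_pos hw0
      show √3 < ff ((1 + √3 / ff w.1.1 w.1.2) * w.1.1) ((1 + √3 / ff w.1.1 w.1.2) * w.1.2)
      rw [ff_smul _ _ _ (by positivity), add_mul, one_mul, div_mul_cancel₀ _ hf.ne']
      linarith
    · intro hp
      have hp' : √3 < ff p.1 p.2.1 := hp
      have hf : 0 < ff p.1 p.2.1 := hs3.trans hp'
      have ht : 0 < 1 - √3 / ff p.1 p.2.1 := by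
        rw [sub_pos, div_lt_one hf]
        exact hp'
      have hfv : ff ((1 - √3 / ff p.1 p.2.1) * p.1) ((1 - √3 / ff p.1 p.2.1) * p.2.1) =
          ff p.1 p.2.1 - √3 := by
        rw [ff_smul _ _ _ ht.le, sub_mul, one_mul, div_mul_cancel₀ _ hf.ne']
      have hpos : 0 < ff p.1 p.2.1 - √3 := sub_pos.2 hp'
      have hkey : (1 + √3 / (ff p.1 p.2.1 - √3)) * (1 - √3 / ff p.1 p.2.1) = 1 := by
        have h1 := hf.ne'
        have h2 := hpos.ne'
        field_simp
        ring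
      refine ⟨(((1 - √3 / ff p.1 p.2.1) * p.1, (1 - √3 / ff p.1 p.2.1) * p.2.1), p.2.2),
        ⟨?_, mem_univ _⟩, ?_⟩
      · intro h0
        have h0' : (((1 - √3 / ff p.1 p.2.1) * p.1, (1 - √3 / ff p.1 p.2.1) * p.2.1) : ℝ × ℝ) = 0 := h0
        have a := congrArg Prod.fst h0'
        have b := congrArg Prod.snd h0'
        simp only [Prod.fst_zero, Prod.snd_zero] at a b
        rw [a, b, ff_zero] at hfv
        linarith
      · show (((1 + √3 / ff ((1 - √3 / ff p.1 p.2.1) * p.1) ((1 - √3 / ff p.1 p.2.1) * p.2.1)) *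
            ((1 - √3 / ff p.1 p.2.1) * p.1),
          (1 + √3 / ff ((1 - √3 / ff p.1 p.2.1) * p.1) ((1 - √3 / ff p.1 p.2.1) * p.2.1)) *
            ((1 - √3 / ff p.1 p.2.1) * p.2.1), p.2.2) : ℝ × ℝ × ℝ) = p
        rw [hfv, ← mul_assoc, ← mul_assoc, hkey, one_mul, one_mul]
  rw [← himg]
  refine hD.image' ?_
  have hc : ContinuousOn (fun w : (ℝ × ℝ) × ℝ => 1 + √3 / ff w.1.1 w.1.2)
      (({(0 : ℝ × ℝ)}ᶜ : Set (ℝ × ℝ)) ×ˢ (univ : Set ℝ)) := by
    refine continuousOn_const.add (continuousOn_const.div (ff_cont.comp continuous_fst).continuousOn ?_)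
    intro w hw
    exact (ff_pos hw.1).ne'
  refine (hc.mul (continuous_fst.comp continuous_fst).continuousOn).prodMk
    ((hc.mul (continuous_snd.comp continuous_fst).continuousOn).prodMk continuous_snd.continuousOn)

theorem pROO : ROO := by
  have h : IsPathConnected (Subtype.val '' RO) := by
    have e : (Subtype.val '' RO : Set (ℝ × ℝ × ℝ)) = {p : ℝ × ℝ × ℝ | √3 < ff p.1 p.2.1} := by
      ext p
      constructor
      · rintro ⟨q, hq, rfl⟩
        exact hq
      · intro hp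
        have hp' : √3 < ff p.1 p.2.1 := hp
        exact ⟨⟨p, fun hK => hp'.ne' hK.2⟩, hp', rfl⟩
    rw [e]
    exact outer
  exact (Topology.IsInducing.subtypeVal.isPathConnected_iff).2 h

end Pool.Agent.H238.HK
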