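import Pool.Agent.H238.HF.KOPNb
import Pool.Agent.H238.HF.KCOV
import Pool.Agent.H238.HF.KGUV
import Pool.Agent.H238.HF.KBOX
import Pool.Agent.H238.HF.KLOC
import Pool.Agent.H238.HF.KNCT
import Pool.Agent.H238.HF.KGEN
import Pool.Agent.H238.HF.KBAS
import Pool.Agent.H238.HF.KRASb
import Pool.Agent.H238.HF.KRBS
import Pool.Agent.H238.HF.KRIOc
import Pool.Agent.H238.HF.KROO
import Pool.Agent.H238.HF.KCRC
import Pool.Agent.H238.HF.KTRPb
import Pool.Agent.H238.HF.KEMBb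
import Pool.Agent.H238.HF.KTRQc
import Pool.Agent.H238.HF.KKNOT

/-!
# A hexagonal trefoil: assembly
-/

namespace Pool.Agent.H238.HK

theorem emb : EMB := pEMB

theorem knot : KNOT :=
  pKNOT (pNCT pOPN pCOV (pLOC pOPN pGUV pBOX)) (pCRC pGEN pBAS pRAS pRBS pRIO pROO) pTRP pTRQ

end Pool.Agent.H238.HK
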