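import Pool.Agent.H238.HF.KDefs

set_option autoImplicit false

open Topology Set Filter

namespace Pool.Agent.H238.HK

private theorem cx : Continuous (fun p : TC => p.1.1) := by fun_prop
private theorem cy : Continuous (fun p : TC => p.1.2.1) := by fun_prop
private theorem cz : Continuous (fun p : TC => p.1.2.2) := by fun_prop

private theorem iand {X : Type*} [TopologicalSpace X] {p q : X → Prop} (hp : IsOpen {x | p x})
    (hq : IsOpen {x | q x}) : IsOpen {x | p x ∧ q x} := hp.inter hq

private theorem ior {X : Type*} [TopologicalSpace X] {p q : X → Prop} (hp : IsOpen {x | p x})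
    (hq : IsOpen {x | q x}) : IsOpen {x | p x ∨ q x} := hp.union hq

theorem pOPN : OPN := by
  intro i
  fin_cases i
  · show IsOpen BU
    unfold BU
    repeat' first | apply iand | apply ior | apply isOpen_lt | apply isOpen_ne_fun
    all_goals fun_prop
  · show IsOpen BV
    unfold BV
    repeat' first | apply iand | apply ior | apply isOpen_lt | apply isOpen_ne_fun
    all_goals fun_prop
  · show IsOpen BW1
    unfold BW1
    repeat' first | apply iand | apply ior | apply isOpen_lt | apply isOpen_ne_fun
    all_goals fun_prop
  · show IsOpen BW2
    unfold BW2
    repeat' first | apply iand | apply ior | apply isOpen_lt | apply isOpen_ne_fun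
    all_goals fun_prop
  · show IsOpen BW3
    unfold BW3
    repeat' first | apply iand | apply ior | apply isOpen_lt | apply isOpen_ne_fun
    all_goals fun_prop

end Pool.Agent.H238.HK
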