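import Pool.Agent.H238.HF.KDefs
import Pool.Agent.H238.HF.MStm2

/-!
# A hexagonal trefoil: the link with the polygons of `H223/MB`
-/

set_option autoImplicit false

open Topology Set Filter

namespace Pool.Agent.H238.HK

open Pool.Agent.H223.MB (V trace Embedded AmbientIsotopic circ)

/-- The trefoil hexagon. -/
noncomputable def P0 : Fin 6 → V :=
  ![!₂[-1, 0, 3], !₂[2, 0, -3], !₂[0, 2, 3], !₂[0, -1, -3], !₂[2, -1, 3], !₂[-1, 2, -3]]

/-- The regular hexagon. -/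
noncomputable def Q0 : Fin 6 → V :=
  circ 0 1 (EuclideanSpace.single 0 1) (EuclideanSpace.single 1 1) (fun i => (i : ℝ) * (Real.pi / 3))

/-- TRP -/
def TRP : Prop := ∀ v : V, v ∈ trace P0 ↔ (v 0, v 1, v 2) ∈ TK
/-- EMB -/
def EMB : Prop := Embedded P0
/-- TRQ -/
def TRQ : Prop := ∀ v : V, v ∈ trace Q0 ↔ (v 0, v 1, v 2) ∈ RK
/-- KNOT -/
def KNOT : Prop := ¬ AmbientIsotopic (trace P0) (trace Q0)
end Pool.Agent.H238.HK
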