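import Pool.Agent.H238.HF.MStm

/-!
# Vectors in the plane
-/

open scoped RealInnerProductSpace Topology
open Set Filter

namespace Pool.Agent.H223.MB

theorem lv_core (X1 X2 X3 X4 Y1 Y2 Y3 Y4 : ℝ) (h1 : 0 < X1) (h2 : 0 < X2) (h3 : X3 < 0)
    (h4 : X4 < 0) (hy1 : 0 < Y1) (hy2 : Y2 < 0) (h12 : 0 < X1 * X2 + Y1 * Y2)
    (h34 : 0 < X3 * X4 + Y3 * Y4) (h13 : 0 < X1 * X3 + Y1 * Y3) (h24 : 0 < X2 * X4 + Y2 * Y4) :
    False := by
  have b1 : X1 * X3 < 0 := mul_neg_of_pos_of_neg h1 h3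
  have b2 : X2 * X4 < 0 := mul_neg_of_pos_of_neg h2 h4
  have b3 : Y1 * Y2 < 0 := mul_neg_of_pos_of_neg hy1 hy2
  have hy3 : 0 < Y3 := by
    have h : 0 < Y1 * Y3 := by linarith
    exact (mul_pos_iff_of_pos_left hy1).1 h
  have hy4 : Y4 < 0 := by
    have h : 0 < Y2 * Y4 := by linarith
    rcases pos_and_pos_or_neg_and_neg_of_mul_pos h with h5 | h5
    · exact absurd h5.1 (not_lt.2 hy2.le)
    · exact h5.2
  have b4 : Y3 * Y4 < 0 := mul_neg_of_pos_of_neg hy3 hy4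
  have m1 : -(Y1 * Y2) * -(Y3 * Y4) < X1 * X2 * (X3 * X4) :=
    mul_lt_mul'' (by linarith) (by linarith) (by linarith) (by linarith)
  have m2 : -(X1 * X3) * -(X2 * X4) < Y1 * Y3 * (Y2 * Y4) :=
    mul_lt_mul'' (by linarith) (by linarith) (by linarith) (by linarith)
  have e1 : -(Y1 * Y2) * -(Y3 * Y4) = Y1 * Y3 * (Y2 * Y4) := by ring
  have e2 : -(X1 * X3) * -(X2 * X4) = X1 * X2 * (X3 * X4) := by ring
  rw [e1] at m1
  rw [e2] at m2
  exact lt_asymm m1 m2

/-- `(u, v)` has positive products with two vectors, and `(a, b)` is the sum of the three -/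
theorem lv_pos (u v p q r s a b : ℝ) (ha : a = u + p + r) (hb : b = v + q + s)
    (h1 : 0 < u * p + v * q) (h2 : 0 < u * r + v * s) : 0 < u * a + v * b := by
  rw [ha, hb]
  have h3 : u * (u + p + r) + v * (v + q + s) = u * u + v * v + (u * p + v * q) +
      (u * r + v * s) := by ring
  rw [h3]
  have h4 := mul_self_nonneg u
  have h5 := mul_self_nonneg v
  linarith

theorem lv_prod (u v p q a b : ℝ) (hab : 0 < a * a + b * b) (h : 0 < u * p + v * q) :
    0 < (u * a + v * b) * (p * a + q * b) + (u * b - v * a) * (p * b - q * a) := by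
  have e : (u * a + v * b) * (p * a + q * b) + (u * b - v * a) * (p * b - q * a) =
      (a * a + b * b) * (u * p + v * q) := by ring
  rw [e]
  exact mul_pos hab h

theorem lv_main (x0 x1 x2 x3 x4 x5 y0 y1 y2 y3 y4 y5 : ℝ)
    (hx : x0 + x1 + x2 + x3 + x4 + x5 = 0) (hy : y0 + y1 + y2 + y3 + y4 + y5 = 0)
    (h02 : 0 < x0 * x2 + y0 * y2) (h04 : 0 < x0 * x4 + y0 * y4) (h24 : 0 < x2 * x4 + y2 * y4)
    (h13 : 0 < x1 * x3 + y1 * y3) (h15 : 0 < x1 * x5 + y1 * y5) (h35 : 0 < x3 * x5 + y3 * y5)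
    (h03 : 0 < x0 * x3 + y0 * y3) (h14 : 0 < x1 * x4 + y1 * y4) (h25 : 0 < x2 * x5 + y2 * y5) :
    False := by
  obtain ⟨a, ha⟩ : ∃ a, a = x1 + x3 + x5 := ⟨_, rfl⟩
  obtain ⟨b, hb⟩ : ∃ b, b = y1 + y3 + y5 := ⟨_, rfl⟩
  have p1 : 0 < x1 * a + y1 * b := lv_pos x1 y1 x3 y3 x5 y5 a b ha hb h13 h15
  have p3 : 0 < x3 * a + y3 * b :=
    lv_pos x3 y3 x1 y1 x5 y5 a b (by linarith) (by linarith) (by linarith) h35
  have p5 : 0 < x5 * a + y5 * b :=
    lv_pos x5 y5 x1 y1 x3 y3 a b (by linarith) (by linarith) (by linarith) (by linarith)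
  have n0 : 0 < x0 * (-a) + y0 * (-b) :=
    lv_pos x0 y0 x2 y2 x4 y4 (-a) (-b) (by linarith) (by linarith) h02 h04
  have n2 : 0 < x2 * (-a) + y2 * (-b) :=
    lv_pos x2 y2 x0 y0 x4 y4 (-a) (-b) (by linarith) (by linarith) (by linarith) h24
  have n4 : 0 < x4 * (-a) + y4 * (-b) :=
    lv_pos x4 y4 x0 y0 x2 y2 (-a) (-b) (by linarith) (by linarith) (by linarith) (by linarith)
  have q0 : x0 * a + y0 * b < 0 := by linarith
  have q2 : x2 * a + y2 * b < 0 := by linarith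
  have q4 : x4 * a + y4 * b < 0 := by linarith
  have hab : 0 < a * a + b * b := by
    rcases eq_or_ne a 0 with h | h
    · rcases eq_or_ne b 0 with h' | h'
      · rw [h, h'] at p1
        linarith
      · have h1 := mul_self_pos.2 h'
        have h2 := mul_self_nonneg a
        linarith
    · have h1 := mul_self_pos.2 h
      have h2 := mul_self_nonneg b
      linarith
  have hs : (x1 * b - y1 * a) + (x3 * b - y3 * a) + (x5 * b - y5 * a) = 0 := by
    have e : (x1 * b - y1 * a) + (x3 * b - y3 * a) + (x5 * b - y5 * a) =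
        (x1 + x3 + x5) * b - (y1 + y3 + y5) * a := by ring
    rw [e, ← ha, ← hb]
    ring
  have r13 := lv_prod x1 y1 x3 y3 a b hab h13
  have r31 := lv_prod x3 y3 x1 y1 a b hab (by linarith)
  have r15 := lv_prod x1 y1 x5 y5 a b hab h15
  have r51 := lv_prod x5 y5 x1 y1 a b hab (by linarith)
  have r35 := lv_prod x3 y3 x5 y5 a b hab h35
  have r53 := lv_prod x5 y5 x3 y3 a b hab (by linarith)
  have r02 := lv_prod x0 y0 x2 y2 a b hab h02
  have r20 := lv_prod x2 y2 x0 y0 a b hab (by linarith)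
  have r04 := lv_prod x0 y0 x4 y4 a b hab h04
  have r40 := lv_prod x4 y4 x0 y0 a b hab (by linarith)
  have r24 := lv_prod x2 y2 x4 y4 a b hab h24
  have r42 := lv_prod x4 y4 x2 y2 a b hab (by linarith)
  have r14 := lv_prod x1 y1 x4 y4 a b hab h14
  have r30 := lv_prod x3 y3 x0 y0 a b hab (by linarith)
  have r52 := lv_prod x5 y5 x2 y2 a b hab (by linarith)
  -- the second coordinates are not zero
  have z : ∀ X X' Y Y' : ℝ, 0 < X → X' < 0 → 0 < X * X' + Y * Y' → Y ≠ 0 := by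
    intro X X' Y Y' h1 h2 h3 h4
    rw [h4, zero_mul, add_zero] at h3
    exact absurd h3 (not_lt.2 (mul_neg_of_pos_of_neg h1 h2).le)
  have z1 := z _ _ _ _ p1 q4 r14
  have z3 := z _ _ _ _ p3 q0 r30
  have z5 := z _ _ _ _ p5 q2 r52
  rcases lt_or_gt_of_ne z1 with s1 | s1
  · rcases lt_or_gt_of_ne z3 with s3 | s3
    · rcases lt_or_gt_of_ne z5 with s5 | s5
      · linarith
      · exact lv_core _ _ _ _ _ _ _ _ p5 p1 q2 q4 s5 s1 r51 r24 r52 r14
    · exact lv_core _ _ _ _ _ _ _ _ p3 p1 q0 q4 s3 s1 r31 r04 r30 r14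
  · rcases lt_or_gt_of_ne z3 with s3 | s3
    · exact lv_core _ _ _ _ _ _ _ _ p1 p3 q4 q0 s1 s3 r13 r40 r14 r30
    · rcases lt_or_gt_of_ne z5 with s5 | s5
      · exact lv_core _ _ _ _ _ _ _ _ p1 p5 q4 q2 s1 s5 r15 r42 r14 r52
      · linarith

theorem pLV : LV := by
  intro x y hx hy h
  rw [Fin.sum_univ_six] at hx hy
  exact lv_main _ _ _ _ _ _ _ _ _ _ _ _ hx hy (h 0 2 (by unfold NonAdj; decide)) (h 0 4 (by unfold NonAdj; decide))
    (h 2 4 (by unfold NonAdj; decide)) (h 1 3 (by unfold NonAdj; decide)) (h 1 5 (by unfold NonAdj; decide)) (h 3 5 (by unfold NonAdj; decide))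
    (h 0 3 (by unfold NonAdj; decide)) (h 1 4 (by unfold NonAdj; decide)) (h 2 5 (by unfold NonAdj; decide))

end Pool.Agent.H223.MB
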